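import Pool.Graph.R_seed8.TH207.Tz3

/-!
The arithmetic of the terminal direction of a pair: a divisibility relation for the ratio of the
degrees.
-/

set_option autoImplicit false
set_option linter.unusedSectionVars false
set_option linter.unusedSimpArgs false

namespace Pool.Agent.H863.TZ

open MvPolynomial
open Pool.Agent.TH207 Pool.Agent.TH207.Ser

variable {k : Type*} [Field k] [CharZero k]

/-- The relation between `a` and `b`. -/
def Rel (a b : ℕ) (U M : ℤ) : Prop :=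
  ∃ N u ρ H : ℕ, 1 ≤ N ∧ (N : ℤ) ≤ M ∧ 1 ≤ ρ ∧ 1 ≤ H ∧ (u : ℤ) ≤ U ∧
    ρ * u + H = N * (a + b) * H ∧
    ((ρ ∣ a ∧ (ρ : ℤ) ∣ (N * b : ℕ) - 1) ∨ (ρ ∣ b ∧ (ρ : ℤ) ∣ (N * a : ℕ) - 1))

theorem Rel.mono {a b : ℕ} {U V M L : ℤ} (h : Rel a b U M) (hUV : U ≤ V) (hML : M ≤ L) :
    Rel a b V L := by
  obtain ⟨N, u, ρ, H, h1, h2, h3, h4, h5, h6, h7⟩ := h
  exact ⟨N, u, ρ, H, h1, h2.trans hML, h3, h4, h5.trans hUV, h6, h7⟩

section term

variable {a b : ℕ} {D d : ℤ} {e : ℕ} {c : k}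
    {F G : MvPolynomial (Fin 2) k} {A : ℤ} {n iF iG : ℕ} {ρ σ K H : ℕ}

/-- At a terminal direction the denominator divides `a` or `b`. -/
theorem rho_dvd (hc : c ≠ 0)
    (hB : Bk D d F G = C c * X 0 ^ e) (X1 : Nx a b D d e F G A n iF iG ρ σ K H)
    (hT : (a + b) * H = K) :
    (ρ ∣ a ∧ (ρ : ℤ) ∣ (n * b : ℕ) - 1) ∨ (ρ ∣ b ∧ (ρ : ℤ) ∣ (n * a : ℕ) - 1) := by
  obtain ⟨m, m', h1, h2, h3, h4⟩ := Pool.Agent.TH207.Ser.mono hc hB
  have h5 := X1.hF.le m h1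
  have h6 := X1.hG.le m' h2
  have hd := X1.hdiff
  have hT' : ((a : ℤ) + b) * H = K := by exact_mod_cast hT
  rw [hT', sub_self] at hd
  have h7 : ρ * iF + σ * (a * n) + (ρ * iG + σ * (b * n)) = σ + ρ * e := by
    zify; linarith
  have h8 : (ρ * m 0 + σ * m 1) + (ρ * m' 0 + σ * m' 1) = σ + ρ * e := by
    rw [← h3]
    calc (ρ * m 0 + σ * m 1) + (ρ * m' 0 + σ * m' 1) =
        ρ * (m 0 + m' 0) + σ * (m 1 + m' 1) := by ring
      _ = σ + ρ * (m 0 + m' 0) := by rw [h4]; ring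
  have h9 : ρ * iF + σ * (a * n) = ρ * m 0 + σ * m 1 := by omega
  have h9' : ρ * iG + σ * (b * n) = ρ * m' 0 + σ * m' 1 := by omega
  have key : ∀ (x i j y : ℕ), ρ * i + σ * (x * n) = ρ * j + σ * y →
      (ρ : ℤ) ∣ ((x * n : ℕ) : ℤ) - y := by
    intro x i j y hxy
    have h11 : (ρ : ℤ) ∣ σ * (((x * n : ℕ) : ℤ) - y) := by
      refine ⟨(j : ℤ) - i, ?_⟩
      zify at hxy
      push_cast
      linarith
    exact (Nat.isCoprime_iff_coprime.2 X1.hcop).dvd_of_dvd_mul_left h11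
  have d1 := key a iF (m 0) (m 1) h9
  have d2 := key b iG (m' 0) (m' 1) h9'
  have fin : ∀ x y : ℕ, (ρ : ℤ) ∣ ((x * n : ℕ) : ℤ) - 0 → (ρ : ℤ) ∣ ((y * n : ℕ) : ℤ) - 1 →
      ρ ∣ x ∧ (ρ : ℤ) ∣ (n * y : ℕ) - 1 := by
    intro x y e1 e2
    have hcop : IsCoprime (ρ : ℤ) (n : ℤ) := by
      obtain ⟨z, hz⟩ := e2
      refine ⟨-z, y, ?_⟩
      push_cast at hz
      linear_combination hz
    rw [sub_zero] at e1
    push_cast at e1
    refine ⟨?_, ?_⟩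
    · exact_mod_cast hcop.dvd_of_dvd_mul_right e1
    · rwa [mul_comm n y]
  rcases Nat.lt_or_ge (m 1) 1 with hm | hm
  · left
    have q1 : m 1 = 0 := by omega
    have q2 : m' 1 = 1 := by omega
    rw [q1] at d1
    rw [q2] at d2
    exact fin a b (by exact_mod_cast d1) (by exact_mod_cast d2)
  · right
    have q1 : m 1 = 1 := by omega
    have q2 : m' 1 = 0 := by omega
    rw [q1] at d1
    rw [q2] at d2
    exact fin b a (by exact_mod_cast d2) (by exact_mod_cast d1)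

/-- The relation at a terminal direction. -/
theorem term_rel (hn : 1 ≤ n) (hc : c ≠ 0)
    (hB : Bk D d F G = C c * X 0 ^ e) (X1 : Nx a b D d e F G A n iF iG ρ σ K H)
    (hT : (a + b) * H = K) {u : ℕ} (hu : (u : ℤ) = (D + d - e) * n - A) :
    Rel a b u n := by
  have h1 := rho_dvd hc hB X1 hT
  have h2 := X1.hu
  rw [← hu] at h2
  refine ⟨n, u, ρ, H, hn, le_rfl, X1.hρ, X1.hH0, le_rfl, ?_, h1⟩
  rw [← hT] at h2
  push_cast at h2
  zify
  linear_combination h2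

end term

end Pool.Agent.H863.TZ
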