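import Pool.Agent.H863.TZ.Four

/-!
The form of the lower component on an edge of the tree of vertices.
-/

set_option autoImplicit false
set_option linter.unusedSectionVars false
set_option linter.unusedSimpArgs false

namespace Pool.Agent.H863.TZ

open MvPolynomial
open Pool.Agent.TH207 Pool.Agent.TH207.Ser Pool.Agent.TH207.Tz

variable {k : Type*} [Field k] [CharZero k] [IsAlgClosed k]

/-- If the lower component is linear, then there is one root only. -/
theorem one_root {f h : Polynomial k} {M D K : ℕ} (hM : 0 < M) (hK : 0 < K) {c : k} (hc : c ≠ 0)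
    (hfd : f.natDegree = M)
    (heq : (D : Polynomial k) * Polynomial.derivative h * f -
      (K : Polynomial k) * Polynomial.derivative f * h = Polynomial.C c * f)
    (hT : h.natDegree ≤ 1) : ∃ r, Polynomial.rootMultiplicity r f = M := by
  classical
  have hf0 : f ≠ 0 := by rintro rfl; simp at hfd; omega
  have hh0 : h ≠ 0 := by
    rintro rfl
    rw [Polynomial.derivative_zero] at heq
    have h1 : Polynomial.C c * f = 0 := by rw [← heq]; ring
    rcases mul_eq_zero.1 h1 with h2 | h2
    · exact hc (Polynomial.C_eq_zero.1 h2)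
    · exact hf0 h2
  have hsub : f.roots.toFinset ⊆ h.roots.toFinset := by
    intro r hr
    rw [Multiset.mem_toFinset, Polynomial.mem_roots hf0] at hr
    rw [Multiset.mem_toFinset, Polynomial.mem_roots hh0]
    exact (root_local hK hc hf0 heq hr).1
  have hcard : f.roots.toFinset.card ≤ 1 :=
    (Finset.card_le_card hsub).trans ((Multiset.toFinset_card_le _).trans
      ((Polynomial.card_roots' h).trans hT))
  have hsum := sum_mult f
  obtain ⟨r, hr⟩ : ∃ r, r ∈ f.roots.toFinset := by
    by_contra h1
    push Not at h1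
    have h2 : f.roots.toFinset = ∅ := Finset.eq_empty_of_forall_notMem h1
    rw [h2, Finset.sum_empty] at hsum
    omega
  have h1 : f.roots.toFinset = {r} := by
    apply (Finset.eq_of_subset_of_card_le (Finset.singleton_subset_iff.2 hr) _).symm
    rw [Finset.card_singleton]; exact hcard
  rw [h1, Finset.sum_singleton] at hsum
  exact ⟨r, by rw [hsum, hfd]⟩

/-- A polynomial all of whose multiplicities are divisible by `a` is a power. -/
theorem exists_pow {f : Polynomial k} {a n : ℕ} (ha : 0 < a) (hf0 : f ≠ 0)
    (hfd : f.natDegree = a * n) (hm : ∀ r, ∃ μ, Polynomial.rootMultiplicity r f = a * μ) :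
    ∃ (κ : k) (f1 : Polynomial k), κ ≠ 0 ∧ f1.Monic ∧ f1.natDegree = n ∧
      f = Polynomial.C κ * f1 ^ a := by
  classical
  choose μ hμ using hm
  refine ⟨f.leadingCoeff, ∏ r ∈ f.roots.toFinset, (Polynomial.X - Polynomial.C r) ^ μ r,
    Polynomial.leadingCoeff_ne_zero.2 hf0, ?_, ?_, ?_⟩
  · exact Polynomial.monic_prod_of_monic _ _ fun r _ => (Polynomial.monic_X_sub_C r).pow _
  · have hmon : (∏ r ∈ f.roots.toFinset, (Polynomial.X - Polynomial.C r) ^ μ r).Monic :=
      Polynomial.monic_prod_of_monic _ _ fun r _ => (Polynomial.monic_X_sub_C r).pow _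
    rw [Polynomial.natDegree_prod_of_monic _ _ fun r _ => (Polynomial.monic_X_sub_C r).pow _]
    have h1 := sum_mult f
    rw [hfd] at h1
    apply Nat.eq_of_mul_eq_mul_left ha
    rw [← h1, Finset.mul_sum]
    apply Finset.sum_congr rfl
    intro r _
    rw [hμ r, (Polynomial.monic_X_sub_C r).natDegree_pow, Polynomial.natDegree_X_sub_C, mul_one]
  · have h1 := (IsAlgClosed.splits f).eq_prod_roots
    conv_lhs => rw [h1]
    rw [Polynomial.prod_multiset_root_eq_finset_root]
    congr 1
    rw [← Finset.prod_pow]
    apply Finset.prod_congr rfl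
    intro r _
    rw [hμ r, ← pow_mul, mul_comm]

/-- The lower component is not linear, and then `H` does not divide `K`, unless there is one root
only. -/
theorem edge_alt {f h : Polynomial k} {a n K H : ℕ} {c' : k} (ha : 0 < a) (hn : 1 ≤ n)
    (hK : 0 < K) (hH : 0 < H) (hc' : c' ≠ 0) (hf0 : f ≠ 0) (hfd : f.natDegree = a * n)
    (heq : ((a * H : ℕ) : Polynomial k) * Polynomial.derivative h * f -
      (K : Polynomial k) * Polynomial.derivative f * h = Polynomial.C c' * f)
    (hm : ∀ r, ∃ μ, Polynomial.rootMultiplicity r f = a * μ) :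
    (∃ r, Polynomial.rootMultiplicity r f = a * n) ∨
    (2 ≤ h.natDegree ∧ H * h.natDegree = K * n ∧ ¬ H ∣ K) := by
  have han : 0 < a * n := Nat.mul_pos ha hn
  rcases Nat.lt_or_ge h.natDegree 2 with hT | hT
  · exact Or.inl (one_root han hK hc' hfd heq (by omega))
  have htop := top_coeff heq (by rw [hfd]; exact han) hT
  rw [hfd] at htop
  have htop2 : H * h.natDegree = K * n := by
    apply Nat.eq_of_mul_eq_mul_left ha
    calc a * (H * h.natDegree) = a * H * h.natDegree := by ring
      _ = K * (a * n) := htop
      _ = a * (K * n) := by ring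
  by_cases hdvd : H ∣ K
  · left
    obtain ⟨j, rfl⟩ := hdvd
    have hj : 0 < j := by
      rcases Nat.eq_zero_or_pos j with h0 | h0
      · subst h0; omega
      · exact h0
    have hTj : h.natDegree = j * n := by
      apply Nat.eq_of_mul_eq_mul_left hH
      rw [htop2]; ring
    obtain ⟨κ, f1, hκ, hmon, hf1d, hf1⟩ := exists_pow ha hf0 hfd hm
    have hf10 : f1 ≠ 0 := hmon.ne_zero
    obtain ⟨g, hg⟩ : ∃ g : Polynomial k, g = Polynomial.C h.leadingCoeff * f1 ^ j := ⟨_, rfl⟩
    have hh0 : h ≠ 0 := by
      rintro rfl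
      simp at hT
    have hlc : h.leadingCoeff ≠ 0 := Polynomial.leadingCoeff_ne_zero.2 hh0
    have hgd : g.natDegree = j * n := by
      rw [hg, Polynomial.natDegree_C_mul hlc, hmon.natDegree_pow, hf1d]
    have hgl : g.leadingCoeff = h.leadingCoeff := by
      rw [hg, Polynomial.leadingCoeff_mul, Polynomial.leadingCoeff_C, (hmon.pow j).leadingCoeff,
        mul_one]
    have hg0 : g ≠ 0 := by
      rw [← Polynomial.leadingCoeff_ne_zero, hgl]; exact hlc
    have hlt : (h - g).degree < h.degree := by
      apply Polynomial.degree_sub_lt _ hh0 hgl.symm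
      rw [Polynomial.degree_eq_natDegree hh0, Polynomial.degree_eq_natDegree hg0, hTj, hgd]
    obtain ⟨a1, rfl⟩ : ∃ a1, a = a1 + 1 := ⟨a - 1, by omega⟩
    obtain ⟨j1, rfl⟩ : ∃ j1, j = j1 + 1 := ⟨j - 1, by omega⟩
    have hfg : (((a1 + 1) * H : ℕ) : Polynomial k) * Polynomial.derivative g * f -
        ((H * (j1 + 1) : ℕ) : Polynomial k) * Polynomial.derivative f * g = 0 := by
      rw [hg, hf1]
      simp only [Polynomial.derivative_mul, Polynomial.derivative_C, Polynomial.derivative_pow,
        zero_mul, zero_add, Nat.add_sub_cancel, map_natCast]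
      push_cast
      ring
    have heq2 : (((a1 + 1) * H : ℕ) : Polynomial k) * Polynomial.derivative (h - g) * f -
        ((H * (j1 + 1) : ℕ) : Polynomial k) * Polynomial.derivative f * (h - g) =
        Polynomial.C c' * f := by
      rw [Polynomial.derivative_sub]
      linear_combination heq - hfg
    apply one_root han hK hc' hfd heq2
    by_contra hcon
    have htop3 := top_coeff heq2 (by rw [hfd]; exact han) (by omega)
    rw [hfd] at htop3
    have h1 : (h - g).natDegree = h.natDegree := by
      apply Nat.eq_of_mul_eq_mul_left (Nat.mul_pos ha hH)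
      rw [htop3, htop]
    have h2 : (h - g) ≠ 0 := by
      intro h0
      rw [h0] at h1
      simp at h1
      omega
    rw [Polynomial.degree_eq_natDegree h2, Polynomial.degree_eq_natDegree hh0, h1] at hlt
    exact lt_irrefl _ hlt
  · exact Or.inr ⟨hT, htop2, hdvd⟩

end Pool.Agent.H863.TZ
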