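import Pool.Agent.H863.TZ.Step

/-!
Trapezoidal pairs with `m = 5 a`.
-/

set_option autoImplicit false
set_option linter.unusedSectionVars false
set_option linter.unusedSimpArgs false

namespace Pool.Agent.H863.TZ

open MvPolynomial
open Pool.Agent.TH207 Pool.Agent.TH207.Ser Pool.Agent.TH207.Tz

/-- There is a vertex without denominators with the given numbers. -/
def Lv1 (k : Type*) [Field k] [CharZero k] (a b : ℕ) (A : ℤ) (n ρ0 σ0 : ℕ) : Prop :=
  ∃ (D d : ℤ) (e : ℕ) (c : k) (F G : MvPolynomial (Fin 2) k) (iF iG : ℕ),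
    St a b D d e c F G ρ0 σ0 A n iF iG ∧ D + d - e = 1 ∧
    (∀ m, coeff m F ≠ 0 → (m 0 : ℤ) ≤ D) ∧ (∀ m, coeff m G ≠ 0 → (m 0 : ℤ) ≤ d)

variable {k : Type*} [Field k] [CharZero k] [IsAlgClosed k]

/-- One step from a vertex without denominators. -/
theorem Lv1.step {a b : ℕ} (ha : 2 ≤ a) (hb : 2 ≤ b) (hcop : Nat.Coprime a b)
    {A : ℤ} {n ρ0 σ0 : ℕ} (L : Lv1 k a b A n ρ0 σ0) (hAn : A < n) :
    ∃ ρ σ K H s μ0 : ℕ, ∃ A0 : ℤ, 2 ≤ ρ ∧ 1 ≤ σ ∧ Nat.Coprime ρ σ ∧ 0 < K ∧ 0 < H ∧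
      (K : ℤ) = ρ - σ ∧ (H : ℤ) = ρ * A - σ * n ∧ 1 ≤ s ∧ H * (1 + ρ * s) = K * n ∧ ¬ H ∣ K ∧
      (ρ : ℤ) * A0 = H + σ * μ0 ∧ 1 ≤ A0 ∧ A0 < A ∧ μ0 < n ∧
      ((H < μ0 * K ∧ A0 < μ0 ∧ Lv1 k a b A0 μ0 ρ σ) ∨
       (μ0 * K < H ∧ ∃ μ : ℕ, 1 ≤ μ ∧ H < μ * K ∧ ρ * μ + μ0 ≤ n ∧
          Live k a b ρ (H + σ * μ) μ 1 σ)) := by
  obtain ⟨D, d, e, c, F, G, iF, iG, S, hl, hFD, hGd⟩ := L
  have hu : 0 < (D + d - e) * n - A := by rw [hl]; linarith
  obtain ⟨ρ, σ, K, H, hlt, X1⟩ := exists_nx ha S hu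
  have hT := X1.not_term S.hc (by omega) (by omega) S.hD S.hd S.hB hl hFD hGd
  obtain ⟨f, g, h, c', Y⟩ := X1.form ha hcop S hT
  have hρ := X1.hρ
  have hσ : 1 ≤ σ := by
    rcases Nat.eq_zero_or_pos σ with h0 | h0
    · subst h0; omega
    · exact h0
  have hKz : (0 : ℤ) < K := by exact_mod_cast X1.hK0
  have hHz : (0 : ℤ) < H := by exact_mod_cast X1.hH0
  have hρz : (0 : ℤ) < ρ := by exact_mod_cast hρ
  have hσz : (1 : ℤ) ≤ σ := by exact_mod_cast hσ
  have hK := X1.hK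
  rw [hl, mul_one] at hK
  have hρ2 : 2 ≤ ρ := by
    have : (2 : ℤ) ≤ ρ := by linarith
    exact_mod_cast this
  have hmain := X1.hu
  rw [hl, one_mul] at hmain
  have h0 : H < n * K := by
    have h1 : (0 : ℤ) < ρ * (n - A) := mul_pos hρz (by linarith)
    zify; linarith
  obtain ⟨s, hs, htop, hdvd⟩ : ∃ s : ℕ, 1 ≤ s ∧ H * (1 + ρ * s) = K * n ∧ ¬ H ∣ K := by
    rcases edge_step ha S X1 Y with ⟨h1, _⟩ | h1
    · omega
    · exact h1
  obtain ⟨r, μ, h1, h2, h3, hμ⟩ := Y.root ha S.hn X1.hK0 h0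
  obtain ⟨μ0, g1, g2⟩ := Y.hm 0
  obtain ⟨A0, iF', iG', e1, L1, L2, e2, e3⟩ := Y.low hcop S X1 g1 g2
  have hA01 : 1 ≤ A0 := by
    have h4 : (0 : ℤ) < ρ * A0 := by rw [e1]; positivity
    have := pos_of_mul_pos_right h4 hρz.le
    linarith
  have hμ0n : μ0 < n := by
    have := Y.hz
    rw [g1] at this
    exact Nat.lt_of_mul_lt_mul_left this
  have hA0A : A0 < A := by
    have h7 : (ρ : ℤ) * A0 < ρ * A := by
      have h8 : (ρ : ℤ) * A = H + σ * n := by rw [X1.hH]; ring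
      rw [e1, h8]
      have h9 : (μ0 : ℤ) < n := by exact_mod_cast hμ0n
      have h10 : (σ : ℤ) * μ0 < σ * n := mul_lt_mul_of_pos_left h9 (by linarith)
      linarith
    exact lt_of_mul_lt_mul_left h7 hρz.le
  refine ⟨ρ, σ, K, H, s, μ0, A0, hρ2, hσ, X1.hcop, X1.hK0, X1.hH0, hK, X1.hH, hs, htop, hdvd,
    e1, hA01, hA0A, hμ0n, ?_⟩
  -- the multiplicity of zero is not critical
  have hne : H ≠ μ0 * K := by
    intro h4
    rcases Nat.eq_zero_or_pos μ0 with h5 | h5
    · subst h5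
      rw [zero_mul] at h4
      have := X1.hH0
      omega
    · have h6 : f.IsRoot 0 := by
        rw [← Polynomial.rootMultiplicity_pos Y.hf0, g1]
        exact Nat.mul_pos (by omega) h5
      have h7 := (root_local X1.hK0 Y.hc' Y.hf0 Y.heq h6).2
      apply h7
      rw [g1, h4]; ring
  rcases lt_or_gt_of_ne hne with h4 | h4
  · left
    have hμ01 : 1 ≤ μ0 := by
      rcases Nat.eq_zero_or_pos μ0 with h5 | h5
      · subst h5; omega
      · exact h5
    have S' : St a b D d e c F G ρ σ A0 μ0 iF' iG' :=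
      ⟨S.hc, S.hB, L1, L2, e2, e3, hρ, hμ01⟩
    have h4z : (H : ℤ) < μ0 * K := by exact_mod_cast h4
    refine ⟨h4, ?_, D, d, e, c, F, G, iF', iG', S', hl, hFD, hGd⟩
    have h6 : (ρ : ℤ) * A0 < ρ * μ0 := by
      rw [e1]
      rw [hK] at h4z
      linarith
    exact lt_of_mul_lt_mul_left h6 hρz.le
  · right
    have hr : r ≠ 0 := by
      rintro rfl
      rw [g1] at h1
      have : μ0 = μ := Nat.eq_of_mul_eq_mul_left (by omega) h1
      subst this
      omega
    have horb := orbit hρ Y.hf0 Y.hres hr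
    rw [h1, g1, Y.hfd] at horb
    have horb2 : ρ * μ + μ0 ≤ n := by
      apply Nat.le_of_mul_le_mul_left _ (by omega : 0 < a)
      calc a * (ρ * μ + μ0) = ρ * (a * μ) + a * μ0 := by ring
        _ ≤ a * n := horb
    obtain ⟨iF2, iG2, _, S2⟩ := Y.step1 S X1 hμ h1 h2
    have hl2 : (ρ * D + ρ * d - ((ρ * e : ℕ) : ℤ)) = ρ := by
      push_cast
      linear_combination (ρ : ℤ) * hl
    exact ⟨h4, μ, hμ, h3, horb2, _, _, _, _, _, _, iF2, iG2, S2, hl2⟩

/-- No vertex without denominators with `A ≤ 3` above the diagonal. -/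
theorem Lv1.three {a b : ℕ} (ha : 2 ≤ a) (hb : 2 ≤ b) (hcop : Nat.Coprime a b)
    {A : ℤ} {n ρ0 σ0 : ℕ} (L : Lv1 k a b A n ρ0 σ0) (hAn : A < n) (h0 : 0 ≤ A) : 4 ≤ A := by
  by_contra hcon
  push Not at hcon
  obtain ⟨D, d, e, c, F, G, iF, iG, S, hl, hFD, hGd⟩ := L
  have i1 := level_one2 ha (by omega) hcop hl hFD hGd n le_rfl S hAn
  obtain ⟨α, β, N, q1, q2, q3, _, q5, _⟩ := i1.linear ha hb
  have q6 := (le_min_iff.1 q5).1
  have q7 : 1 * 1 ≤ N * β := Nat.mul_le_mul q3 q2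
  have q8 : (2 : ℤ) ≤ ((α + N * β : ℕ) : ℤ) := by exact_mod_cast (by omega : 2 ≤ α + N * β)
  have q9 : 0 ≤ A * (3 - A) := mul_nonneg h0 (by linarith)
  have q10 : A ^ 2 - 3 * A + 1 ≤ 1 := by linarith
  linarith

/-- Vertices without denominators with `A = 4`. -/
theorem Lv1.four {a b : ℕ} (ha : 2 ≤ a) (hb : 2 ≤ b) (hcop : Nat.Coprime a b)
    {n ρ0 σ0 : ℕ} (L : Lv1 k a b 4 n ρ0 σ0) (hAn : 4 < n) :
    n = 12 ∧ (3 * a = 2 * b + 1 ∨ 3 * b = 2 * a + 1) := by
  obtain ⟨D, d, e, c, F, G, iF, iG, S, hl, hFD, hGd⟩ := L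
  exact level_four ha hb hcop hl hFD hGd S hAn

/-- The relations between `a` and `b` for `m = 5 a`. -/
def R5 (x y : ℕ) : Prop :=
  2 * y = x + 1 ∨ 6 * y = x + 2 ∨ 3 * y = 4 * x + 1 ∨ 8 * y = 3 * x + 2 ∨ 4 * y = 7 * x + 1

/-- Vertices without denominators with `A = 5`. -/
theorem Lv1.five {a b : ℕ} (ha : 2 ≤ a) (hb : 2 ≤ b) (hcop : Nat.Coprime a b)
    {n ρ0 σ0 : ℕ} (L : Lv1 k a b 5 n ρ0 σ0) (hAn : 5 < n) :
    n = 20 ∧ (R5 a b ∨ R5 b a) := by
  obtain ⟨ρ, σ, K, H, s, μ0, A0, hρ2, hσ, hc, hK0, hH0, hK, hH, hs, htop, hdvd, e1, hA01, hA0A,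
    hμ0n, h | h⟩ := L.step ha hb hcop (by exact_mod_cast hAn)
  · exfalso
    obtain ⟨h1, h2, L'⟩ := h
    have h3 := L'.three ha hb hcop h2 (by linarith)
    have h4 : A0 = 4 := by omega
    subst h4
    obtain ⟨h5, _⟩ := L'.four ha hb hcop (by exact_mod_cast h2)
    subst h5
    have h6 : (ρ : ℤ) = σ * (n - 12) := by
      push_cast at e1
      linear_combination -hH - e1
    have h7 : σ ∣ ρ := by
      have : (σ : ℤ) ∣ ρ := ⟨_, h6⟩
      exact_mod_cast this
    have h8 : σ = 1 := hc.symm.eq_one_of_dvd h7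
    subst h8
    push_cast at h6 hH hK
    have htz : (H : ℤ) * (1 + ρ * s) = K * n := by exact_mod_cast htop
    have h9 : (n : ℤ) = ρ + 12 := by linarith
    have hρz : (2 : ℤ) ≤ ρ := by exact_mod_cast hρ2
    have h10 : (4 * s : ℤ) * (ρ - 3) = ρ + 7 := by
      apply mul_left_cancel₀ (by linarith : (ρ : ℤ) ≠ 0)
      rw [hH, hK, h9] at htz
      linear_combination htz
    have hHz : (0 : ℤ) < H := by exact_mod_cast hH0
    have h11 : (4 : ℤ) ≤ ρ := by
      rw [h9] at hH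
      linarith
    have hsz : (1 : ℤ) ≤ s := by exact_mod_cast hs
    have h12 : (4 * 1 : ℤ) * (ρ - 3) ≤ (4 * s) * (ρ - 3) :=
      mul_le_mul_of_nonneg_right (by linarith) (by linarith)
    have h13 : ρ ≤ 6 := by
      have : (ρ : ℤ) ≤ 6 := by linarith
      exact_mod_cast this
    have h14 : 4 ≤ ρ := by exact_mod_cast h11
    interval_cases ρ
    · push_cast at h10; omega
    · push_cast at h10; omega
    · push_cast at h10; omega
  · obtain ⟨h4, μ, hμ, h3, horb2, LL⟩ := h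
    obtain ⟨hμ2, _, S0, hS1, hS2, hAX, _, hρA, hXA, hS3⟩ := cross_arith hσ hK0 hK hH hc
      e1 hA01 h4 hs htop horb2 h3
    have hKz : (0 : ℤ) < K := by exact_mod_cast hK0
    have hHz : (0 : ℤ) < H := by exact_mod_cast hH0
    have hσz : (1 : ℤ) ≤ σ := by exact_mod_cast hσ
    have h3z : (H : ℤ) < μ * K := by exact_mod_cast h3
    have t1 : (1 : ℤ) * s ≤ σ * s := mul_le_mul_of_nonneg_right hσz (by positivity)
    have hsz : (1 : ℤ) ≤ s := by exact_mod_cast hs
    have t2 : (σ : ℤ) * 1 ≤ σ * s := mul_le_mul_of_nonneg_left hsz (by positivity)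
    have hσ3 : σ ≤ 3 := by
      have : (σ : ℤ) ≤ 3 := by linarith
      exact_mod_cast this
    have hs3 : s ≤ 3 := by
      have : (s : ℤ) ≤ 3 := by linarith
      exact_mod_cast this
    have t3 : (1 : ℤ) * S0 ≤ σ * S0 := mul_le_mul_of_nonneg_right hσz (by positivity)
    have hS04 : S0 ≤ 4 := by
      have : (S0 : ℤ) ≤ 4 := by linarith
      exact_mod_cast this
    have hρ5 : ρ ≤ 5 := by exact_mod_cast hρA
    have hK4 : K ≤ 4 := by
      have : (K : ℤ) ≤ 4 := by linarith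
      exact_mod_cast this
    clear hdvd hA0A t1 t2 t3 hXA hρA hμ0n
    interval_cases σ <;> interval_cases s <;> interval_cases ρ <;> interval_cases K <;>
      try (exfalso; omega)
    · -- `n = 10`
      exfalso
      have u1 : H = 5 := by omega
      subst u1
      have u2 : μ = 3 := by omega
      subst u2
      exact LL.dead1 ha hb hcop (by norm_num)
    · -- `n = 15`
      exfalso
      have u1 : H = 10 := by omega
      subst u1
      have u2 : μ = 3 := by omega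
      subst u2
      obtain ⟨α, β, ρ', H', v1, v2, v3, v4, _⟩ := LL.coprime ha hb hcop (by norm_num)
        ⟨1, -1, by norm_num⟩
      have v5 : (α + 3 * β) * H' = 2 := by
        zify; push_cast at v4; linarith
      have v6 : 4 * 1 ≤ (α + 3 * β) * H' := Nat.mul_le_mul (by omega) v3
      omega
    · -- `n = 20`
      have u1 : H = 5 := by omega
      subst u1
      have u2 : n = 20 := by omega
      refine ⟨u2, ?_⟩
      have u3 : μ = 2 ∨ μ = 3 ∨ μ = 4 := by omega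
      rcases u3 with rfl | rfl | rfl
      · obtain ⟨α, β, ρ', H', v1, v2, v3, v4, v5⟩ := LL.coprime ha hb hcop (by norm_num)
          ⟨-1, 1, by norm_num⟩
        have v6 : (α + 2 * β) * H' = 3 := by
          zify; push_cast at v4; linarith
        have v7 : H' = 1 := by
          by_contra hne
          have : 3 * 2 ≤ (α + 2 * β) * H' := Nat.mul_le_mul (by omega) (by omega)
          omega
        subst v7
        have v8 : α = 1 := by omega
        have v9 : β = 1 := by omega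
        subst v8 v9
        unfold R5
        omega
      · obtain ⟨α, β, ρ', H', v1, v2, v3, v4, v5⟩ := LL.coprime ha hb hcop (by norm_num)
          ⟨-2, 1, by norm_num⟩
        have v6 : (α + 3 * β) * H' = 7 := by
          zify; push_cast at v4; linarith
        have v7 : H' = 1 := by
          by_contra hne
          have : 4 * 2 ≤ (α + 3 * β) * H' := Nat.mul_le_mul (by omega) (by omega)
          omega
        subst v7
        have v8 : (α = 4 ∧ β = 1) ∨ (α = 1 ∧ β = 2) := by omega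
        unfold R5
        rcases v8 with ⟨rfl, rfl⟩ | ⟨rfl, rfl⟩ <;> omega
      · obtain ⟨α, β, ρ', H', v1, v2, v3, v4, v5⟩ := LL.coprime ha hb hcop (by norm_num)
          ⟨3, -1, by norm_num⟩
        have v6 : (α + 4 * β) * H' = 11 := by
          zify; push_cast at v4; linarith
        have v7 : H' = 1 := by
          by_contra hne
          have : 5 * 2 ≤ (α + 4 * β) * H' := Nat.mul_le_mul (by omega) (by omega)
          have h11 : H' ≤ 2 := by
            by_contra h3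
            have : 5 * 3 ≤ (α + 4 * β) * H' := Nat.mul_le_mul (by omega) (by omega)
            omega
          have h12 : H' = 2 := by omega
          subst h12
          omega
        subst v7
        have v8 : (α = 7 ∧ β = 1) ∨ (α = 3 ∧ β = 2) := by omega
        unfold R5
        rcases v8 with ⟨rfl, rfl⟩ | ⟨rfl, rfl⟩ <;> omega
    · -- `n = 10`
      exfalso
      have u1 : H = 5 := by omega
      subst u1
      have u2 : μ = 2 := by omega
      subst u2
      exact LL.dead1 ha hb hcop (by norm_num)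

end Pool.Agent.H863.TZ
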