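import Pool.Agent.H863.TZ.Live

/-!
Trapezoidal pairs with `m = 4 a`.
-/

set_option autoImplicit false
set_option linter.unusedSectionVars false
set_option linter.unusedSimpArgs false

namespace Pool.Agent.H863.TZ

open MvPolynomial
open Pool.Agent.TH207 Pool.Agent.TH207.Ser Pool.Agent.TH207.Tz

variable {k : Type*} [Field k] [CharZero k] [IsAlgClosed k]

/-- No vertex with `n = 2` and `u = 2`. -/
theorem Live.dead22 {a b : ℕ} (ha : 2 ≤ a) (hb : 2 ≤ b) (hcop : Nat.Coprime a b)
    {l A : ℤ} {ρ0 σ0 : ℕ} (L : Live k a b l A 2 ρ0 σ0) (hu : l * 2 - A = 2) : False := by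
  apply trans_ind (P := False) (l := l) (A := A) (n := 2) _ L
  intro ρ0 σ0 L
  obtain ⟨ρ, σ, K, H, hρ, hc, hlt, hK0, hH0, hK, hH, h | h⟩ := L.step ha hb hcop (by
    push_cast; omega)
  · obtain ⟨α, β, h1, h2, h3, _⟩ := h
    exfalso
    push_cast at h3
    rw [hu] at h3
    have h4 : (α + 2 * β) * H = 2 := by exact_mod_cast h3
    have h5 : 3 * 1 ≤ (α + 2 * β) * H := Nat.mul_le_mul (by omega) hH0
    omega
  · obtain ⟨μ, hμ, hμK, hch, _⟩ := h
    push_cast at hH
    have key : (ρ : ℤ) * 2 = 2 * K - H := by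
      rw [hK, hH]; linear_combination (-(ρ : ℤ)) * hu
    have hμKz : (H : ℤ) < μ * K := by exact_mod_cast hμK
    have hHz : (0 : ℤ) < H := by exact_mod_cast hH0
    have hρz : (0 : ℤ) < ρ := by exact_mod_cast hρ
    rcases hch with ⟨hμ2, A', e1, L'⟩ | ⟨hμ2, L'⟩
    · exfalso
      have hμ1 : μ = 1 := by omega
      subst hμ1
      push_cast at e1 hμKz
      have h5 : (ρ : ℤ) * (l - A') = K - H := by
        rw [hK]; linear_combination -e1
      have h6 : 0 < l - A' := by
        have : 0 < (ρ : ℤ) * (l - A') := by rw [h5]; linarith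
        exact pos_of_mul_pos_right this hρz.le
      have h7 : (ρ : ℤ) * 1 ≤ ρ * (l - A') := mul_le_mul_of_nonneg_left (by omega) hρz.le
      linarith
    · rcases Nat.lt_or_ge μ 2 with h3 | h3
      · exfalso
        have hμ1 : μ = 1 := by omega
        subst hμ1
        push_cast at hμKz L'
        have hρ2 : ρ ≤ 2 := by omega
        have hρ2z : (ρ : ℤ) ≤ 2 := by exact_mod_cast hρ2
        have hu' : (ρ * l) * ((1 : ℕ) : ℤ) - (H + σ * 1) = 1 := by
          push_cast
          have h4 : (K : ℤ) - H = 1 := by omega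
          linarith
        exact L'.dead1 ha hb hcop hu'
      · right
        have hμ2' : μ = 2 := by
          have : 1 * μ ≤ ρ * μ := Nat.mul_le_mul_right _ hρ
          omega
        subst hμ2'
        have hρ1 : ρ = 1 := by omega
        subst hρ1
        refine ⟨σ, by omega, by push_cast at hK; omega, ?_⟩
        have h4 : ((1 : ℕ) : ℤ) * l = l := by push_cast; ring
        have h5 : (H : ℤ) + σ * ((2 : ℕ) : ℤ) = A := by push_cast at hH ⊢; linarith
        rw [h4, h5] at L'
        exact L'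

/-- The vertex with `l = 4`, `A = 7` and `n = 3`. -/
theorem Live.state35 {a b : ℕ} (ha : 2 ≤ a) (hb : 2 ≤ b) (hcop : Nat.Coprime a b)
    {ρ0 σ0 : ℕ} (L : Live k a b 4 7 3 ρ0 σ0) : 3 * a = 2 * b + 1 ∨ 3 * b = 2 * a + 1 := by
  apply trans_ind (P := 3 * a = 2 * b + 1 ∨ 3 * b = 2 * a + 1) (l := 4) (A := 7) (n := 3) _ L
  intro ρ0 σ0 L
  obtain ⟨ρ, σ, K, H, hρ, hc, hlt, hK0, hH0, hK, hH, h | h⟩ := L.step ha hb hcop (by
    norm_num)
  · left
    obtain ⟨α, β, h1, h2, h3, h4⟩ := h
    push_cast at h3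
    have h5 : (α + 3 * β) * H = 5 := by
      zify; linarith
    have h6 : H = 1 := by
      by_contra hne
      have h7 : 4 * 2 ≤ (α + 3 * β) * H := Nat.mul_le_mul (by omega) (by omega)
      omega
    subst h6
    have h7 : β = 1 := by omega
    have h8 : α = 2 := by omega
    subst h7 h8
    omega
  · obtain ⟨μ, hμ, hμK, hch, hoth⟩ := h
    push_cast at hH
    have key : (ρ : ℤ) * 5 = 3 * K - H := by rw [hK, hH]; ring
    have hμKz : (H : ℤ) < μ * K := by exact_mod_cast hμK
    have hHz : (0 : ℤ) < H := by exact_mod_cast hH0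
    have hρz : (0 : ℤ) < ρ := by exact_mod_cast hρ
    have hKz : (0 : ℤ) < K := by exact_mod_cast hK0
    rcases Nat.lt_or_ge ρ 2 with hρ2 | hρ2
    · -- an integral slope
      have hρ1 : ρ = 1 := by omega
      subst hρ1
      push_cast at hK hH
      have hchild : ∀ μ', Child k a b 4 3 1 σ H μ' → Live k a b 4 (H + σ * μ') μ' 1 σ := by
        rintro μ' (⟨_, A', e1, L'⟩ | ⟨_, L'⟩)
        · have : A' = H + σ * μ' := by push_cast at e1; linarith
          rw [← this]; exact L'
        · have h4 : ((1 : ℕ) : ℤ) * 4 = 4 := by norm_num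
          rw [h4] at L'
          exact L'
      have L1 := hchild μ hch
      have hμ3 : μ ≤ 3 := by
        rcases hch with ⟨h1, _⟩ | ⟨h1, _⟩ <;> omega
      have hσ1 : 1 ≤ σ := by
        rcases Nat.eq_zero_or_pos σ with h0 | h0
        · subst h0; omega
        · exact h0
      have hσ2 : σ ≤ 2 := by omega
      rcases Nat.lt_or_ge μ 3 with h3 | h3
      · left
        exfalso
        rcases Nat.lt_or_ge σ 2 with h4 | h4
        · have h5 : σ = 1 := by omega
          subst h5
          have h6 : K = 3 := by omega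
          have h7 : H = 4 := by omega
          subst h6 h7
          have h8 : μ = 2 := by omega
          subst h8
          exact L1.dead22 ha hb hcop (by norm_num)
        · have h5 : σ = 2 := by omega
          subst h5
          have h6 : K = 2 := by omega
          have h7 : H = 1 := by omega
          subst h6 h7
          rcases Nat.lt_or_ge μ 2 with h8 | h8
          · have h9 : μ = 1 := by omega
            subst h9
            exact L1.dead1 ha hb hcop (by norm_num)
          · obtain ⟨μ', g1, g2, g3⟩ := hoth h3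
            have h9 : μ' = 1 := by omega
            subst h9
            exact (hchild 1 g3).dead1 ha hb hcop (by norm_num)
      · right
        have h4 : μ = 3 := by omega
        subst h4
        refine ⟨σ, by omega, by omega, ?_⟩
        have h5 : (H : ℤ) + σ * ((3 : ℕ) : ℤ) = 7 := by push_cast; linarith
        rw [h5] at L1
        exact L1
    · left
      exfalso
      rcases hch with ⟨hμ2, A', e1, L'⟩ | ⟨hμ2, L'⟩
      · -- the root zero
        have h1 : (ρ : ℤ) ∣ 3 - μ := by
          apply (Nat.isCoprime_iff_coprime.2 hc).dvd_of_dvd_mul_left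
          refine ⟨7 - A', ?_⟩
          have : (ρ : ℤ) * (7 - A') = ρ * 7 - ρ * A' := by ring
          rw [this, e1, hH]; ring
        have h2 : (ρ : ℤ) ≤ 3 - μ := Int.le_of_dvd (by omega) h1
        have h3 : μ = 1 := by omega
        subst h3
        have h4 : ρ = 2 := by omega
        subst h4
        push_cast at *
        have h5 : K = 4 := by omega
        subst h5
        have h6 : σ = 4 := by omega
        subst h6
        revert hc
        decide
      · have h1 : μ = 1 := by
          by_contra hne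
          have : 2 * 2 ≤ ρ * μ := Nat.mul_le_mul hρ2 (by omega)
          omega
        subst h1
        have h2 : ρ = 2 ∨ ρ = 3 := by omega
        rcases h2 with rfl | rfl
        · push_cast at *
          have h5 : K = 4 := by omega
          subst h5
          have h6 : σ = 4 := by omega
          subst h6
          revert hc
          decide
        · push_cast at *
          have h5 : K = 6 ∨ K = 7 := by omega
          rcases h5 with rfl | rfl
          · have h6 : σ = 6 := by omega
            subst h6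
            revert hc
            decide
          · have h6 : H = 6 := by omega
            have h7 : σ = 5 := by omega
            subst h6 h7
            exact L'.dead1 ha hb hcop (by norm_num)

/-- Vertices without denominators with `A = 4`. -/
theorem level_four {a b : ℕ} (ha : 2 ≤ a) (hb : 2 ≤ b) (hcop : Nat.Coprime a b) {D d : ℤ} {e : ℕ}
    {c : k} {F G : MvPolynomial (Fin 2) k} (hl : D + d - e = 1)
    (hFD : ∀ m, coeff m F ≠ 0 → (m 0 : ℤ) ≤ D) (hGd : ∀ m, coeff m G ≠ 0 → (m 0 : ℤ) ≤ d)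
    {ρ0 σ0 : ℕ} {n iF iG : ℕ} (S : St a b D d e c F G ρ0 σ0 4 n iF iG) (hAn : 4 < n) :
    n = 12 ∧ (3 * a = 2 * b + 1 ∨ 3 * b = 2 * a + 1) := by
  have hnz : (4 : ℤ) < n := by exact_mod_cast hAn
  have hu : 0 < (D + d - e) * n - 4 := by rw [hl]; linarith
  obtain ⟨ρ, σ, K, H, hlt, X1⟩ := exists_nx ha S hu
  have hT := X1.not_term S.hc (by omega) (by omega) S.hD S.hd S.hB hl hFD hGd
  obtain ⟨f, g, h, c', Y⟩ := X1.form ha hcop S hT
  have hρ := X1.hρ
  have hσ : 1 ≤ σ := by
    rcases Nat.eq_zero_or_pos σ with h0 | h0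
    · subst h0; omega
    · exact h0
  have hKz : (0 : ℤ) < K := by exact_mod_cast X1.hK0
  have hHz : (0 : ℤ) < H := by exact_mod_cast X1.hH0
  have hρz : (0 : ℤ) < ρ := by exact_mod_cast hρ
  have hσz : (1 : ℤ) ≤ σ := by exact_mod_cast hσ
  have hK := X1.hK
  rw [hl, mul_one] at hK
  have hρ2 : 2 ≤ ρ := by
    have : (2 : ℤ) ≤ ρ := by linarith
    exact_mod_cast this
  have hmain := X1.hu
  rw [hl, one_mul] at hmain
  have h0 : H < n * K := by
    have h1 : (0 : ℤ) < ρ * (n - 4) := mul_pos hρz (by linarith)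
    zify; linarith
  obtain ⟨r, μ, h1, h2, h3, hμ⟩ := Y.root ha S.hn X1.hK0 h0
  obtain ⟨μ0, g1, g2⟩ := Y.hm 0
  obtain ⟨A0, iF', iG', e1, L1, L2, e2, e3⟩ := Y.low hcop S X1 g1 g2
  have hA01 : 1 ≤ A0 := by
    have h4 : (0 : ℤ) < ρ * A0 := by rw [e1]; positivity
    have := pos_of_mul_pos_right h4 hρz.le
    linarith
  have hμ0n : μ0 < n := by
    have := Y.hz
    rw [g1] at this
    exact Nat.lt_of_mul_lt_mul_left this
  have haz : (2 : ℤ) ≤ a := by exact_mod_cast ha
  -- the multiplicity of zero is not critical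
  have hne : H ≠ μ0 * K := by
    intro h4
    rcases Nat.eq_zero_or_pos μ0 with h5 | h5
    · subst h5
      rw [zero_mul] at h4
      have := X1.hH0
      omega
    · have h6 : f.IsRoot 0 := by
        rw [← Polynomial.rootMultiplicity_pos Y.hf0, g1]
        exact Nat.mul_pos (by omega) h5
      have h7 := (root_local X1.hK0 Y.hc' Y.hf0 Y.heq h6).2
      apply h7
      rw [g1, h4]; ring
  rcases lt_or_gt_of_ne hne with h4 | h4
  · -- the edge stays above the diagonal
    exfalso
    have hμ01 : 1 ≤ μ0 := by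
      rcases Nat.eq_zero_or_pos μ0 with h5 | h5
      · subst h5; omega
      · exact h5
    have S' : St a b D d e c F G ρ σ A0 μ0 iF' iG' :=
      ⟨S.hc, S.hB, L1, L2, e2, e3, hρ, hμ01⟩
    have h4z : (H : ℤ) < μ0 * K := by exact_mod_cast h4
    have h5 : A0 < μ0 := by
      have h6 : (ρ : ℤ) * A0 < ρ * μ0 := by
        rw [e1]
        rw [hK] at h4z
        linarith
      exact lt_of_mul_lt_mul_left h6 hρz.le
    have i1 := level_one2 ha (by omega) hcop hl hFD hGd μ0 le_rfl S' h5
    have h6 : A0 < 4 := by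
      have h7 : (ρ : ℤ) * A0 < ρ * 4 := by
        have h8 : (ρ : ℤ) * 4 = H + σ * n := by rw [X1.hH]; ring
        rw [e1, h8]
        have h9 : (μ0 : ℤ) < n := by exact_mod_cast hμ0n
        have h10 : (σ : ℤ) * μ0 < σ * n := mul_lt_mul_of_pos_left h9 (by linarith)
        linarith
      exact lt_of_mul_lt_mul_left h7 hρz.le
    obtain ⟨α, β, N, q1, q2, q3, _, q5, _⟩ := i1.linear ha hb
    have q6 := (le_min_iff.1 q5).1
    have q7 : 1 * 1 ≤ N * β := Nat.mul_le_mul q3 q2
    have q8 : (2 : ℤ) ≤ ((α + N * β : ℕ) : ℤ) := by exact_mod_cast (by omega : 2 ≤ α + N * β)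
    have q9 : (A0 - 0) * (3 - A0) ≥ 0 := mul_nonneg (by linarith) (by linarith)
    have q10 : A0 ^ 2 - 3 * A0 + 1 ≤ 1 := by linarith
    linarith
  · -- the edge crosses the diagonal
    have hr : r ≠ 0 := by
      rintro rfl
      rw [g1] at h1
      have : μ0 = μ := Nat.eq_of_mul_eq_mul_left (by omega) h1
      subst this
      omega
    have hfr : f.IsRoot r := by
      rw [← Polynomial.rootMultiplicity_pos Y.hf0, h1]
      exact Nat.mul_pos (by omega) (by omega)
    obtain ⟨s, hs, hT'⟩ := h_natDegree hρ2 Y X1.hK0 hr hfr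
    have hn0 : 0 < n := S.hn
    have htop := top_coeff Y.heq (by rw [Y.hfd]; exact Nat.mul_pos (by omega) hn0) (by
      rw [hT']
      have : 2 * 1 ≤ ρ * s := Nat.mul_le_mul hρ2 hs
      omega)
    rw [hT', Y.hfd] at htop
    have htop2 : H * (1 + ρ * s) = K * n := by
      apply Nat.eq_of_mul_eq_mul_left (by omega : 0 < a)
      calc a * (H * (1 + ρ * s)) = a * H * (1 + ρ * s) := by ring
        _ = K * (a * n) := htop
        _ = a * (K * n) := by ring
    have horb := orbit hρ Y.hf0 Y.hres hr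
    rw [h1, g1, Y.hfd] at horb
    have horb2 : ρ * μ + μ0 ≤ n := by
      apply Nat.le_of_mul_le_mul_left _ (by omega : 0 < a)
      calc a * (ρ * μ + μ0) = ρ * (a * μ) + a * μ0 := by ring
        _ ≤ a * n := horb
    obtain ⟨hμ2, _, S0, hS1, hS2, hAX, _, _, hXA, hS3⟩ := cross_arith hσ X1.hK0 hK X1.hH X1.hcop
      e1 hA01 h4 hs htop2 horb2 h3
    obtain ⟨iF2, iG2, _, S2⟩ := Y.step1 S X1 hμ h1 h2
    have hl2 : (ρ * D + ρ * d - ((ρ * e : ℕ) : ℤ)) = ρ := by
      push_cast
      linear_combination (ρ : ℤ) * hl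
    have LL : Live k a b ρ (H + σ * μ) μ 1 σ := ⟨_, _, _, _, _, _, iF2, iG2, S2, hl2⟩
    -- the arithmetic
    have hH := X1.hH
    have h3z : (H : ℤ) < μ * K := by exact_mod_cast h3
    have t1 : (1 : ℤ) * s ≤ σ * s := mul_le_mul_of_nonneg_right hσz (by positivity)
    have hsz : (1 : ℤ) ≤ s := by exact_mod_cast hs
    have t2 : (σ : ℤ) * 1 ≤ σ * s := mul_le_mul_of_nonneg_left hsz (by positivity)
    have hσ2 : σ ≤ 2 := by
      have : (σ : ℤ) ≤ 2 := by linarith
      exact_mod_cast this
    have hs2 : s ≤ 2 := by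
      have : (s : ℤ) ≤ 2 := by linarith
      exact_mod_cast this
    have t3 : (1 : ℤ) * S0 ≤ σ * S0 := mul_le_mul_of_nonneg_right hσz (by positivity)
    have hS03 : S0 ≤ 3 := by
      have : (S0 : ℤ) ≤ 3 := by linarith
      exact_mod_cast this
    have hρ4 : (ρ : ℤ) ≤ 4 := by assumption
    have hρ4' : ρ ≤ 4 := by exact_mod_cast hρ4
    interval_cases σ
    · interval_cases s
      · -- `s = 1`
        push_cast at *
        have u1 : (H : ℤ) = 2 * K := by linarith
        have u2 : μ = 3 := by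
          have : 3 ≤ μ := by
            by_contra hcon
            have u3 : (μ : ℤ) ≤ 2 := by exact_mod_cast (by omega : μ ≤ 2)
            have u4 : (μ : ℤ) * K ≤ 2 * K := mul_le_mul_of_nonneg_right u3 hKz.le
            linarith
          omega
        subst u2
        have u5 : S0 = 3 := by omega
        subst u5
        exfalso
        have u6 : ρ = 2 := by omega
        subst u6
        have u7 : K = 1 := by omega
        subst u7
        have u8 : H = 2 := by omega
        subst u8
        exact LL.dead1 ha hb hcop (by norm_num)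
      · -- `s = 2`
        push_cast at *
        have u1 : ρ = 4 := by omega
        subst u1
        have u2 : K = 3 := by omega
        subst u2
        have u3 : H = 4 := by omega
        subst u3
        have u4 : n = 12 := by omega
        refine ⟨by omega, ?_⟩
        have u5 : μ = 2 ∨ μ = 3 := by omega
        rcases u5 with rfl | rfl
        · exfalso
          exact LL.dead22 ha hb hcop (by norm_num)
        · have u6 : ((4 : ℕ) : ℤ) = 4 := by norm_num
          have u7 : ((4 : ℕ) : ℤ) + 1 * ((3 : ℕ) : ℤ) = 7 := by norm_num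
          rw [u7, u6] at LL
          exact LL.state35 ha hb hcop
    · -- `σ = 2`
      exfalso
      interval_cases s
      · push_cast at *
        omega
      · exact absurd hXA (by norm_num)

/-- The consequence of the local theory in the direction `(1, 0)`. -/
theorem main0_four {a b : ℕ} (ha : 2 ≤ a) (hb : 2 ≤ b) (hcop : Nat.Coprime a b)
    {c : k} (hc : c ≠ 0) {F G : MvPolynomial (Fin 2) k}
    (hF : Le (a * 4) 0 F) (hG : Le (b * 4) 0 G)
    (h : pderiv 0 F * pderiv 1 G - pderiv 1 F * pderiv 0 G = C c)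
    (hf0 : tp (a * 4) 0 F ≠ 0) (hg0 : tp (b * 4) 0 G ≠ 0) :
    ∃ q, (tp (a * 4) 0 F).natDegree = a * q ∧ (tp (b * 4) 0 G).natDegree = b * q ∧
      (4 < q → 12 ≤ q ∧ (3 * a = 2 * b + 1 ∨ 3 * b = 2 * a + 1)) := by
  have hB := Bk_W hF hG (Nat.zero_le _) (Nat.zero_le _) (by omega) h
  obtain ⟨q, e1, e2, e3, _, e5⟩ := start ha (by omega : 1 ≤ b) hcop (A := 4) (l := 1)
    (e := a * 4 + b * 4 - 1)
    hc (by simpa using hB) (by rw [add_mul]; omega) (by omega) (by omega) one_pos hf0 hg0
  refine ⟨q, e1, e2, fun hlt => ?_⟩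
  obtain ⟨r, μ, g1, g2, _, S⟩ := e5 (by rwa [mul_one])
  have h3 : ∀ m, coeff m (W (a * 4) 0 F) ≠ 0 → m 0 ≤ a * 4 := by
    intro m hm
    obtain ⟨m', _, h4, _⟩ := exists_of_coeff_W hm
    omega
  have h4 : ∀ m, coeff m (W (b * 4) 0 G) ≠ 0 → m 0 ≤ b * 4 := by
    intro m hm
    obtain ⟨m', _, h4, _⟩ := exists_of_coeff_W hm
    omega
  have h5 := shf_support (r := r) h3
  have h6 := shf_support (r := r) h4
  have h7 := level_four ha hb hcop (D := ((a * 4 : ℕ) : ℤ)) (d := ((b * 4 : ℕ) : ℤ))
    (e := a * 4 + b * 4 - 1) (by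
      rw [Nat.cast_sub (by omega)]; push_cast; ring)
    (fun m hm => by exact_mod_cast h5 m hm) (fun m hm => by exact_mod_cast h6 m hm) S (by omega)
  exact ⟨h7.1 ▸ g2, h7.2⟩

theorem main_four {a b q : ℕ} (ha : 2 ≤ a) (hb : 2 ≤ b) (hcop : Nat.Coprime a b)
    (hpq : 4 < q) {F G : MvPolynomial (Fin 2) k} {c : k} (hc : c ≠ 0)
    (hJ : pderiv 0 F * pderiv 1 G - pderiv 1 F * pderiv 0 G = C c)
    (hF1 : ∀ d, coeff d F ≠ 0 → d 1 ≤ a * q ∧ d 0 + d 1 ≤ a * 4 + a * q)
    (hF2 : coeff (ee (a * 4) (a * q)) F ≠ 0)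
    (hF3 : ∀ i ≤ a * q, ((X 0 + X 1 : MvPolynomial (Fin 2) k) ^ (a * q - i)) ∣
      homogeneousComponent (a * 4 + a * q - i) F)
    (hG1 : ∀ d, coeff d G ≠ 0 → d 0 + d 1 ≤ b * 4 + b * q)
    (hG2 : coeff (ee (b * 4) (b * q)) G ≠ 0) :
    12 ≤ q ∧ (3 * a = 2 * b + 1 ∨ 3 * b = 2 * a + 1) := by
  have hFt : F.totalDegree ≤ a * 4 + a * q := tot_le fun d hd => (hF1 d hd).2
  have hGt : G.totalDegree ≤ b * 4 + b * q := tot_le hG1
  have hGt' : G.totalDegree = b * 4 + b * q := by
    apply le_antisymm hGt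
    have := le_tot hG2
    rwa [ee_zero, ee_one] at this
  obtain ⟨κ, hκ, hT⟩ := top_form hF1 hF2 (by
    have := hF3 0 (Nat.zero_le _)
    simpa using this)
  obtain ⟨t1, t2⟩ := top_z hFt hκ hT
  have hJ' : pderiv 0 (ph F) * pderiv 1 (ph G) - pderiv 1 (ph F) * pderiv 0 (ph G) = C c := by
    rw [jac_ph, hJ, ph_C]
  have hG3 : ∃ d, coeff d (ph G) ≠ 0 ∧ d 0 + d 1 = b * 4 + b * q := by
    have h0 : ph G ≠ 0 := by
      intro h0
      have h1 := ps_ph G
      rw [h0, map_zero] at h1
      rw [← h1, coeff_zero] at hG2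
      exact hG2 rfl
    have h1 : ((ph G).support).Nonempty := by
      rw [Finset.nonempty_iff_ne_empty, Ne, support_eq_empty]; exact h0
    obtain ⟨d, h2, h3⟩ := Finset.exists_mem_eq_sup (ph G).support h1
      (fun m => m.sum (fun _ e => e))
    refine ⟨d, mem_support_iff.1 h2, ?_⟩
    rw [← hGt', ← totalDegree_ph' G]
    unfold totalDegree
    rw [h3, fsum]
  obtain ⟨r1, r2, r3, r4⟩ := pair ha (by omega) (by omega : 0 < 4) (by omega) hc hJ'
    (deg_z hFt hF3) (Le.of_tot ((totalDegree_ph F).trans hFt)) t1 t2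
    (Le.of_tot ((totalDegree_ph G).trans hGt)) hG3
  obtain ⟨q', s1, _, s4⟩ := main0_four ha hb hcop hc (deg_z hFt hF3) r1 hJ' r3 r4
  have hqq : q' = q := by
    rw [r2] at s1
    exact (Nat.eq_of_mul_eq_mul_left (by omega) s1).symm
  rw [hqq] at s4
  exact s4 hpq

end Pool.Agent.H863.TZ
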