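import Pool.Agent.H863.TZ.Prime

/-!
Vertices with a small value of `u`.
-/

set_option autoImplicit false
set_option linter.unusedSectionVars false
set_option linter.unusedSimpArgs false

namespace Pool.Agent.H863.TZ

open MvPolynomial
open Pool.Agent.TH207 Pool.Agent.TH207.Ser Pool.Agent.TH207.Tz

variable {k : Type*} [Field k] [CharZero k] [IsAlgClosed k]

/-- One step, where in the last case there are several roots. -/
theorem Live.step3 {a b : ℕ} (ha : 2 ≤ a) (hb : 2 ≤ b) (hcop : Nat.Coprime a b)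
    {l A : ℤ} {n ρ0 σ0 : ℕ} (L : Live k a b l A n ρ0 σ0) (hu : 0 < l * n - A) :
    ∃ ρ σ K H : ℕ, 0 < ρ ∧ Nat.Coprime ρ σ ∧ σ0 * ρ < σ * ρ0 ∧ 0 < K ∧ 0 < H ∧
      (K : ℤ) = ρ * l - σ ∧ (H : ℤ) = ρ * A - σ * n ∧
      ((∃ α β : ℕ, 1 ≤ α ∧ 1 ≤ β ∧ ((α : ℤ) + n * β) * H = l * n - A) ∨
      (ρ = 1 ∧ Live k a b l A n 1 σ) ∨
      (∃ s : ℕ, 1 ≤ s ∧ (s : ℤ) * H = l * n - A ∧ H * (1 + ρ * s) = K * n ∧ ¬ H ∣ K ∧
        ∃ μ : ℕ, 1 ≤ μ ∧ μ < n ∧ H < μ * K ∧ Child k a b l n ρ σ H μ)) := by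
  obtain ⟨D, d, e, c, F, G, iF, iG, S, hl⟩ := L
  subst hl
  obtain ⟨ρ, σ, K, H, hlt, X1⟩ := exists_nx ha S hu
  refine ⟨ρ, σ, K, H, X1.hρ, X1.hcop, hlt, X1.hK0, X1.hH0, X1.hK, X1.hH, ?_⟩
  have hρz : (0 : ℤ) < ρ := by exact_mod_cast X1.hρ
  rcases Nat.lt_or_ge K ((a + b) * H) with hT | hT
  · right
    obtain ⟨f, g, h, c', Y⟩ := X1.form ha hcop S hT
    have h0 : H < n * K := by
      have h1 : (0 : ℤ) < ρ * ((D + d - e) * n - A) := mul_pos hρz hu
      rw [X1.hu] at h1
      zify; linarith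
    obtain ⟨r, μ, h1, h2, h3, hμ⟩ := Y.root ha S.hn X1.hK0 h0
    have hμn : μ ≤ n := by
      have h4 := sum_mult_le f {r}
      rw [Finset.sum_singleton, h1, Y.hfd] at h4
      exact Nat.le_of_mul_le_mul_left h4 (by omega)
    rcases Nat.lt_or_ge μ n with hlt | hge
    · rcases edge_step ha S X1 Y with ⟨h5, D', d', e', c2, F', G', iF', iG', h6, h7⟩ |
          ⟨s, hs, h4, h5⟩
      · left
        exact ⟨h5, _, _, _, _, _, _, _, _, h6, h7⟩
      · right
        refine ⟨s, hs, ?_, h4, h5, ?_⟩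
        · apply mul_left_cancel₀ hρz.ne'
          rw [X1.hu]
          have h4z : (H : ℤ) * (1 + ρ * s) = K * n := by exact_mod_cast h4
          linear_combination h4z
        refine ⟨μ, hμ, hlt, h3, ?_⟩
        by_cases hr : r = 0
        · subst hr
          left
          obtain ⟨A', iF', iG', e1, _, S'⟩ := Y.step0 hcop S X1 hμ h1 h2
          exact ⟨hlt, A', e1, D, d, e, c, F, G, iF', iG', S', rfl⟩
        · right
          obtain ⟨iF', iG', _, S'⟩ := Y.step1 S X1 hμ h1 h2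
          refine ⟨?_, _, _, _, _, _, _, iF', iG', S', by push_cast; ring⟩
          have horb := orbit X1.hρ Y.hf0 Y.hres hr
          rw [h1, Y.hfd] at horb
          have h4 : a * (ρ * μ) ≤ a * n := by
            calc a * (ρ * μ) = ρ * (a * μ) := by ring
              _ ≤ a * n := by omega
          exact Nat.le_of_mul_le_mul_left h4 (by omega)
    · -- one root only
      left
      have hμ' : μ = n := by omega
      subst hμ'
      have hr0 : r ≠ 0 := by
        rintro rfl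
        have := Y.hz
        omega
      have horb := orbit X1.hρ Y.hf0 Y.hres hr0
      rw [h1, Y.hfd] at horb
      have hρ1 : ρ = 1 := by
        by_contra hne
        have h3 : 2 ≤ ρ := by have := X1.hρ; omega
        have h4 : 2 * (a * μ) ≤ ρ * (a * μ) := Nat.mul_le_mul_right _ h3
        have h5 : 1 * 1 ≤ a * μ := Nat.mul_le_mul (by omega) hμ
        omega
      subst hρ1
      obtain ⟨iF', iG', _, S'⟩ := Y.step1 S X1 S.hn h1 h2
      have h6 : (H : ℤ) + σ * μ = A := by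
        have := X1.hH
        push_cast at this
        linarith
      rw [h6] at S'
      exact ⟨rfl, _, _, _, _, _, _, iF', iG', S', by push_cast; ring⟩
  · left
    have hT' : (a + b) * H = K := le_antisymm hT X1.hle
    obtain ⟨u, hu'⟩ := Int.eq_ofNat_of_zero_le hu.le
    obtain ⟨α, β, e1, e2, e3, e4⟩ := term_lin ha hb S.hn S.hc S.hB X1 hT' hu'.symm
    refine ⟨α, β, e1, e2, ?_⟩
    rw [hu']
    exact_mod_cast e3

theorem arith_nz {u s H ρ K n μ u' : ℕ} (hu5 : u ≤ 5) (hH2 : 2 ≤ H) (hs : 1 ≤ s)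
    (hsH : s * H = u) (h2 : H * (1 + ρ * s) = K * n) (h3 : ¬ H ∣ K)
    (hμ : 1 ≤ μ) (h5 : μ < u') (h6 : u' < u) (h7 : u' + H = μ * K) (h8 : ρ * μ ≤ n) : n < u := by
  have key : ρ * u' + ρ * H ≤ H + ρ * u := by
    calc ρ * u' + ρ * H = ρ * (u' + H) := by ring
      _ = ρ * μ * K := by rw [h7]; ring
      _ ≤ n * K := Nat.mul_le_mul_right _ h8
      _ = K * n := mul_comm _ _
      _ = H + ρ * u := by rw [← h2, ← hsH]; ring
  have hs2 : s ≤ 2 := by
    have : s * 2 ≤ s * H := Nat.mul_le_mul_left s hH2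
    omega
  have hH5 : H ≤ 5 := by
    have : 1 * H ≤ s * H := Nat.mul_le_mul_right H hs
    omega
  have hK9 : K ≤ 9 := by
    have : 1 * K ≤ μ * K := Nat.mul_le_mul_right K hμ
    omega
  subst hsH
  have hu4 : u' ≤ 4 := by omega
  have hμ3 : μ ≤ 3 := by omega
  have hu1 : 2 ≤ u' := by omega
  interval_cases s <;> interval_cases H <;> try omega
  all_goals interval_cases u' <;> try omega
  all_goals interval_cases μ <;> try omega
  all_goals interval_cases K <;> omega

theorem arith_z {u s H ρ K n μ u' : ℕ} (hu5 : u ≤ 5) (hH2 : 2 ≤ H) (hs : 1 ≤ s)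
    (hsH : s * H = u) (h2 : H * (1 + ρ * s) = K * n) (h3 : ¬ H ∣ K)
    (hμ : 1 ≤ μ) (h5 : μ < u') (h6 : u' < u) (h7 : ρ * u' + H = μ * K) (h8 : μ < n)
    (hcop : Nat.Coprime K ρ) : n < u := by
  have hs2 : s ≤ 2 := by
    have : s * 2 ≤ s * H := Nat.mul_le_mul_left s hH2
    omega
  have hH5 : H ≤ 5 := by
    have : 1 * H ≤ s * H := Nat.mul_le_mul_right H hs
    omega
  have hdvd : K ∣ u - u' := by
    apply hcop.dvd_of_dvd_mul_left
    refine ⟨n - μ, ?_⟩
    rw [Nat.mul_sub, Nat.mul_sub, ← h2, mul_comm K μ, ← h7, ← hsH]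
    have : H * (1 + ρ * s) = ρ * (s * H) + H := by ring
    rw [this]
    omega
  have hK : K ≤ u - u' := Nat.le_of_dvd (by omega) hdvd
  subst hsH
  have hu4 : u' ≤ 4 := by omega
  have hμ3 : μ ≤ 3 := by omega
  have hu1 : 2 ≤ u' := by omega
  have hK3 : K ≤ 3 := by omega
  interval_cases s <;> interval_cases H <;> try omega
  all_goals interval_cases u' <;> try omega
  all_goals interval_cases μ <;> try omega
  all_goals interval_cases K <;> omega

/-- For `u ≤ 5` we have `n < u`. -/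
theorem Live.small {a b : ℕ} (ha : 2 ≤ a) (hb : 2 ≤ b) (hcop : Nat.Coprime a b) :
    ∀ (u : ℕ) {l A : ℤ} {n ρ0 σ0 : ℕ}, Live k a b l A n ρ0 σ0 → (u : ℤ) = l * n - A → 0 < u →
      u ≤ 5 → n < u := by
  intro u
  induction u using Nat.strong_induction_on with
  | _ u ih =>
  intro l A n ρ0 σ0 L hu hu0 hu5
  have hu0z : (0 : ℤ) < u := by exact_mod_cast hu0
  apply trans_ind (l := l) (A := A) (n := n) _ L
  intro ρ0 σ0 L
  obtain ⟨ρ, σ, K, H, hρ, hc, hlt, hK0, hH0, hK, hH, h | h | h⟩ := L.step3 ha hb hcop (by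
    rw [← hu]; exact hu0z)
  · left
    obtain ⟨α, β, h1, h2, h3⟩ := h
    rw [← hu] at h3
    have h4 : (α + n * β) * H = u := by exact_mod_cast h3
    have h5 : (1 + n * 1) * 1 ≤ (α + n * β) * H :=
      Nat.mul_le_mul (add_le_add h1 (Nat.mul_le_mul_left n h2)) hH0
    omega
  · right
    obtain ⟨rfl, L'⟩ := h
    refine ⟨σ, by omega, ?_, L'⟩
    push_cast at hK
    omega
  · left
    obtain ⟨s, hs, h1, h2, h3, μ, hμ, hμn, h4, hch⟩ := h
    rw [← hu] at h1
    have hsH : s * H = u := by exact_mod_cast h1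
    have hH2 : 2 ≤ H := by
      by_contra hcon
      have : H = 1 := by omega
      subst this
      exact h3 (one_dvd K)
    have hKz : (0 : ℤ) < K := by exact_mod_cast hK0
    have hHz : (0 : ℤ) < H := by exact_mod_cast hH0
    have hρz : (0 : ℤ) < ρ := by exact_mod_cast hρ
    have hμz : (μ : ℤ) < n := by exact_mod_cast hμn
    have h4z : (H : ℤ) < μ * K := by exact_mod_cast h4
    have h2z : (H : ℤ) * (1 + ρ * s) = K * n := by exact_mod_cast h2
    have hmain : (ρ : ℤ) * u = n * K - H := by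
      rw [← h1]; linear_combination h2z
    rcases hch with ⟨_, A', e1, L'⟩ | ⟨h8, L'⟩
    · obtain ⟨uz, huz⟩ : ∃ uz : ℤ, uz = l * μ - A' := ⟨_, rfl⟩
      have e2 : (ρ : ℤ) * uz = μ * K - H := by
        rw [huz, hK]
        linear_combination -e1
      have e3 : 0 < uz := by
        have : (0 : ℤ) < ρ * uz := by rw [e2]; linarith
        exact pos_of_mul_pos_right this hρz.le
      have e4 : uz < u := by
        have h5 : (ρ : ℤ) * uz < ρ * u := by
          rw [e2, hmain]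
          have := mul_lt_mul_of_pos_right hμz hKz
          linarith
        exact lt_of_mul_lt_mul_left h5 hρz.le
      obtain ⟨u', hu'⟩ := Int.eq_ofNat_of_zero_le e3.le
      subst hu'
      have e5 : u' < u := by exact_mod_cast e4
      have h6 := ih u' e5 L' huz (by exact_mod_cast e3) (by omega)
      have h7 : ρ * u' + H = μ * K := by zify; linarith
      have hcop' : Nat.Coprime K ρ := by
        apply Nat.isCoprime_iff_coprime.1
        obtain ⟨x, y, hxy⟩ := Nat.isCoprime_iff_coprime.2 hc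
        refine ⟨-y, x + y * l, ?_⟩
        rw [hK]
        linear_combination hxy
      exact arith_z hu5 hH2 hs hsH h2 h3 hμ h6 e5 h7 hμn hcop'
    · obtain ⟨uz, huz⟩ : ∃ uz : ℤ, uz = μ * K - H := ⟨_, rfl⟩
      have e3 : 0 < uz := by rw [huz]; linarith
      have hρμz : (ρ : ℤ) * μ ≤ n := by exact_mod_cast h8
      have hid : (ρ : ℤ) * (u - uz) = K * (n - ρ * μ) + (ρ - 1) * H := by
        rw [mul_sub, hmain, huz]; ring
      have e4 : uz < u := by
        have h5 : (0 : ℤ) < ρ * (u - uz) := by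
          rw [hid]
          rcases Nat.lt_or_ge ρ 2 with h9 | h9
          · have h10 : ρ = 1 := by omega
            subst h10
            have h11 : (0 : ℤ) < K * (n - ((1 : ℕ) : ℤ) * μ) := by
              apply mul_pos hKz
              push_cast
              linarith
            push_cast at h11 ⊢
            linarith
          · have h10 : (2 : ℤ) ≤ ρ := by exact_mod_cast h9
            have h11 : (0 : ℤ) ≤ K * (n - ρ * μ) := mul_nonneg hKz.le (by linarith)
            have h12 : (0 : ℤ) < (ρ - 1) * H := mul_pos (by linarith) hHz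
            linarith
        have := pos_of_mul_pos_right h5 hρz.le
        linarith
      obtain ⟨u', hu'⟩ := Int.eq_ofNat_of_zero_le e3.le
      subst hu'
      have e5 : u' < u := by exact_mod_cast e4
      have h6 := ih u' e5 L' (by rw [huz, hK]; ring) (by exact_mod_cast e3) (by omega)
      have h7 : u' + H = μ * K := by zify; linarith
      exact arith_nz hu5 hH2 hs hsH h2 h3 hμ h6 e5 h7 h8

theorem arith_cross {ρ σ K H n μ0 μ s S : ℕ} {A A0 : ℤ} (hσ : 1 ≤ σ) (hK0 : 0 < K)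
    (hK : (K : ℤ) = ρ - σ) (hH : (H : ℤ) = ρ * A - σ * n) (hA01 : 1 ≤ A0)
    (hs : 1 ≤ s) (hH2 : 2 ≤ H) (hu : s * H ≤ 7) (hS1 : n = μ0 + ρ * S) (hS2 : A = A0 + σ * S)
    (hAX : A * K = H * (1 + σ * s)) (hSX : A * s + 1 ≤ S * (1 + σ * s))
    (hXA : 1 + (σ : ℤ) * s ≤ A - 1) (hμS : μ ≤ S) : μ * K ≤ H + 5 ∧ μ * K ≤ H + μ := by
  have hKz : (0 : ℤ) < K := by exact_mod_cast hK0
  have hHz : (0 : ℤ) < H := by exact_mod_cast (by omega : 0 < H)
  have hσz : (1 : ℤ) ≤ σ := by exact_mod_cast hσ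
  have hsz : (1 : ℤ) ≤ s := by exact_mod_cast hs
  have hX0 : (0 : ℤ) < 1 + σ * s := by positivity
  have hKH : K < H := by
    have h1 : (A - 1 + 1) * K < (A - 1 + 1) * (H : ℤ) := by
      have h2 : (H : ℤ) * (1 + σ * s) ≤ H * (A - 1) := mul_le_mul_of_nonneg_left hXA hHz.le
      calc (A - 1 + 1) * (K : ℤ) = A * K := by ring
        _ = H * (1 + σ * s) := hAX
        _ ≤ H * (A - 1) := h2
        _ < (A - 1 + 1) * H := by linarith
    exact_mod_cast lt_of_mul_lt_mul_left h1 (by linarith)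
  have hSK : (s : ℤ) * H < S * K := by
    have h1 : (K : ℤ) * (A * s) < K * (S * (1 + σ * s)) := by
      apply mul_lt_mul_of_pos_left _ hKz
      linarith
    have h2 : (s * H : ℤ) * (1 + σ * s) < (S * K) * (1 + σ * s) := by
      linear_combination h1 - s * hAX
    exact lt_of_mul_lt_mul_right h2 hX0.le
  have hid : (σ : ℤ) * (S * K - s * H) = H - A0 * K := by
    rw [hS2] at hAX
    linear_combination hAX
  have hσ6 : σ ≤ 6 := by
    have h1 : (σ : ℤ) * 1 ≤ σ * (S * K - s * H) :=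
      mul_le_mul_of_nonneg_left (by linarith) (by linarith)
    have h2 : (1 : ℤ) * K ≤ A0 * K := mul_le_mul_of_nonneg_right hA01 hKz.le
    have h3 : 1 * H ≤ s * H := Nat.mul_le_mul_right H hs
    have h4 : (H : ℤ) ≤ 7 := by exact_mod_cast (by omega : H ≤ 7)
    have h5 : (1 : ℤ) ≤ K := by exact_mod_cast hK0
    have : (σ : ℤ) ≤ 6 := by linarith
    exact_mod_cast this
  have hs3 : s ≤ 3 := by
    have : s * 2 ≤ s * H := Nat.mul_le_mul_left s hH2
    omega
  have hH7 : H ≤ 7 := by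
    have : 1 * H ≤ s * H := Nat.mul_le_mul_right H hs
    omega
  clear hX0 hKz hHz hσz hsz hXA hSX
  obtain rfl : ρ = K + σ := by omega
  interval_cases s <;> interval_cases H <;> try omega
  all_goals interval_cases K <;> try omega
  all_goals interval_cases σ <;> omega

/-- For the vertices without denominators above the diagonal we have `n - A ≥ 8`. -/
theorem Lv1.gap {a b : ℕ} (ha : 2 ≤ a) (hb : 2 ≤ b) (hcop : Nat.Coprime a b) :
    ∀ (u : ℕ) {A : ℤ} {n ρ0 σ0 : ℕ}, Lv1 k a b A n ρ0 σ0 → (u : ℤ) = n - A → 0 < u → 8 ≤ u := by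
  intro u
  induction u using Nat.strong_induction_on with
  | _ u ih =>
  intro A n ρ0 σ0 L hu hu0
  have hu0z : (0 : ℤ) < u := by exact_mod_cast hu0
  obtain ⟨ρ, σ, K, H, s, μ0, A0, hρ2, hσ, hc, hK0, hH0, hK, hH, hs, htop, hdvd, e1, hA01, hA0A,
    hμ0n, h⟩ := L.step ha hb hcop (by linarith)
  have hρz : (0 : ℤ) < ρ := by exact_mod_cast (by omega : 0 < ρ)
  have hKz : (0 : ℤ) < K := by exact_mod_cast hK0
  have htz : (H : ℤ) * (1 + ρ * s) = K * n := by exact_mod_cast htop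
  have hmain : (ρ : ℤ) * u = n * K - H := by
    rw [hu, hK, hH]; ring
  rcases h with ⟨h11, h12, L'⟩ | ⟨h11, μ, hμ, h12, h13, L'⟩
  · -- above the diagonal
    obtain ⟨u0, hu0'⟩ := Int.eq_ofNat_of_zero_le (by linarith : 0 ≤ (μ0 : ℤ) - A0)
    have h1 : (u0 : ℤ) < u := by
      have h2 : (ρ : ℤ) * u0 < ρ * u := by
        rw [hmain, ← hu0']
        have h3 : (μ0 : ℤ) < n := by exact_mod_cast hμ0n
        have h4 : (μ0 : ℤ) * K < n * K := mul_lt_mul_of_pos_right h3 hKz
        have h5 : (ρ : ℤ) * (μ0 - A0) = μ0 * K - H := by rw [mul_sub, e1, hK]; ring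
        linarith
      exact lt_of_mul_lt_mul_left h2 hρz.le
    have h6 := ih u0 (by exact_mod_cast h1) L' hu0'.symm (by omega)
    have h7 : u0 < u := by exact_mod_cast h1
    omega
  · -- the edge crosses the diagonal
    by_contra hcon
    push Not at hcon
    obtain ⟨hμ2, _, S0, hS1, hS2, hAX, hSX, _, hXA, hS3⟩ := cross_arith hσ hK0 hK hH hc e1 hA01 h11
      hs htop h13 h12
    have hsH : s * H = u := by
      have h1 : (ρ : ℤ) * (s * H) = ρ * u := by rw [hmain]; linear_combination htz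
      have h2 := mul_left_cancel₀ hρz.ne' h1
      exact_mod_cast h2
    have hH2 : 2 ≤ H := by
      by_contra hcon
      have : H = 1 := by omega
      subst this
      exact hdvd (one_dvd K)
    obtain ⟨h1, h2⟩ := arith_cross hσ hK0 hK hH hA01 hs hH2 (by omega) hS1 hS2 hAX hSX hXA hS3
    have h12z : (H : ℤ) < μ * K := by exact_mod_cast h12
    obtain ⟨u', hu'⟩ := Int.eq_ofNat_of_zero_le (by linarith : 0 ≤ (μ : ℤ) * K - H)
    have h3 : μ * K = u' + H := by zify; linarith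
    have h4 := Live.small ha hb hcop u' L' (by rw [← hu', hK]; ring) (by omega) (by omega)
    omega

/-- One has `n ≥ m + 8 a`. -/
theorem gap_corner {a b p q : ℕ} (ha : 2 ≤ a) (hb : 2 ≤ b) (hcop : Nat.Coprime a b)
    (hp : 0 < p) (hpq : p < q) {F G : MvPolynomial (Fin 2) k} {c : k} (hc : c ≠ 0)
    (hJ : pderiv 0 F * pderiv 1 G - pderiv 1 F * pderiv 0 G = C c)
    (hF1 : ∀ d, coeff d F ≠ 0 → d 1 ≤ a * q ∧ d 0 + d 1 ≤ a * p + a * q)
    (hF2 : coeff (ee (a * p) (a * q)) F ≠ 0)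
    (hF3 : ∀ i ≤ a * q, ((X 0 + X 1 : MvPolynomial (Fin 2) k) ^ (a * q - i)) ∣
      homogeneousComponent (a * p + a * q - i) F)
    (hG1 : ∀ d, coeff d G ≠ 0 → d 1 ≤ b * q ∧ d 0 + d 1 ≤ b * p + b * q)
    (hG2 : coeff (ee (b * p) (b * q)) G ≠ 0) : p + 8 ≤ q := by
  obtain ⟨μ, h1, h2, L⟩ := main_start ha (by omega) hcop hp hpq hc hJ hF1 hF2 hF3
    (fun d hd => (hG1 d hd).2) hG2
  have h3 := L.gap ha hb hcop (μ - p) (by
    rw [Nat.cast_sub h1.le]) (by omega)
  omega

end Pool.Agent.H863.TZ
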