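import Pool.Agent.H863.TZ.Gap2

/-!
The case `n < m + 12 a`.
-/

set_option autoImplicit false
set_option linter.unusedSectionVars false
set_option linter.unusedSimpArgs false

namespace Pool.Agent.H863.TZ

open MvPolynomial
open Pool.Agent.TH207 Pool.Agent.TH207.Ser Pool.Agent.TH207.Tz

variable {k : Type*} [Field k] [CharZero k] [IsAlgClosed k]

/-- A finite check. -/
theorem fin_check {u n H s ρ K μ μ0 S u' : ℕ} (hu6 : 6 ≤ u) (hu9 : u ≤ 9) (hun : u ≤ n)
    (hn : n ≤ 12) (hex : ¬ (u = 8 ∧ n = 12)) (hs : 1 ≤ s) (hH2 : 2 ≤ H) (hsH : s * H = u)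
    (hmain : ρ * u + H = n * K) (hdvd : ¬ H ∣ K) (hρ : 1 ≤ ρ) (hμ : 1 ≤ μ) (hρμ : ρ * μ ≤ n)
    (h7 : u' + H = μ * K) (h8 : μ < u') (hS : n = μ0 + ρ * S) (h9 : μ0 * K ≤ H)
    (hcop : Nat.Coprime K ρ) : False := by
  have hρ12 : ρ ≤ 12 := by
    have : ρ * 1 ≤ ρ * μ := Nat.mul_le_mul_left ρ hμ
    omega
  have hμ12 : μ ≤ 12 := by
    have : 1 * μ ≤ ρ * μ := Nat.mul_le_mul_right μ hρ
    omega
  have hs4 : s ≤ 4 := by
    have : s * 2 ≤ s * H := Nat.mul_le_mul_left s hH2
    omega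
  have hHu : H ≤ u := by
    have : 1 * H ≤ s * H := Nat.mul_le_mul_right H hs
    omega
  have hH9 : H ≤ 9 := hHu.trans hu9
  have hK20 : K ≤ 20 := by
    have h1 : ρ * u ≤ 12 * u := Nat.mul_le_mul_right u hρ12
    have h2 : u * K ≤ n * K := Nat.mul_le_mul_right K hun
    have h3 : u * K ≤ u * 13 := by omega
    have h4 := Nat.le_of_mul_le_mul_left h3 (by omega)
    omega
  have hcop2 : ¬ (K = 2 ∧ ρ = 2) := by
    rintro ⟨rfl, rfl⟩
    exact absurd hcop (by decide)
  clear hcop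
  subst hsH
  interval_cases s <;> interval_cases H <;> try omega
  all_goals interval_cases n <;> try omega
  all_goals interval_cases ρ <;> try omega
  all_goals interval_cases K <;> omega

/-- A vertex which comes from the root zero has to be small. -/
theorem zero_small {u n H ρ K μ u' : ℕ} (hun : u ≤ n) (hH0 : 0 < H) (hmain : ρ * u + H = n * K)
    (h7 : ρ * u' + H = μ * K) (hμn : μ < n) : u' ≤ μ := by
  by_contra h6
  push Not at h6
  have h8 : n * (ρ * u' + H) = μ * (ρ * u + H) := by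
    rw [h7, hmain]; ring
  have h9 : μ * (ρ * u) ≤ n * (ρ * u') := by
    calc μ * (ρ * u) ≤ u' * (ρ * u) := Nat.mul_le_mul_right _ h6.le
      _ = u * (ρ * u') := by ring
      _ ≤ n * (ρ * u') := Nat.mul_le_mul_right _ hun
  have h10 : μ * H < n * H := Nat.mul_lt_mul_of_pos_right hμn hH0
  have h11 : n * (ρ * u') + n * H = μ * (ρ * u) + μ * H := by
    rw [← mul_add, ← mul_add]; exact h8
  omega

/-- For `u ≤ 9` and `n ≤ 12` we have `n < u`, except for `u = 8`, `n = 12`. -/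
theorem Live.small2 {a b : ℕ} (ha : 2 ≤ a) (hb : 2 ≤ b) (hcop : Nat.Coprime a b) :
    ∀ (u : ℕ) {l A : ℤ} {n ρ0 σ0 : ℕ}, Live k a b l A n ρ0 σ0 → (u : ℤ) = l * n - A → 0 < u →
      u ≤ 9 → n ≤ 12 → n < u ∨ (u = 8 ∧ n = 12) := by
  intro u
  induction u using Nat.strong_induction_on with
  | _ u ih =>
  intro l A n ρ0 σ0 L hu hu0 hu9 hn12
  rcases Nat.lt_or_ge u 6 with h56 | h56
  · exact Or.inl (Live.small ha hb hcop u L hu hu0 (by omega))
  by_contra hcon
  push Not at hcon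
  obtain ⟨hun, hex⟩ := hcon
  have hex' : ¬ (u = 8 ∧ n = 12) := fun h => hex h.1 h.2
  have hu0z : (0 : ℤ) < u := by exact_mod_cast hu0
  apply trans_ind (P := False) (l := l) (A := A) (n := n) _ L
  intro ρ0 σ0 L
  obtain ⟨ρ, σ, K, H, hρ, hc, hlt, hK0, hH0, hK, hH, h | h | h⟩ := L.step4 ha hb hcop (by
    rw [← hu]; exact hu0z)
  · left
    obtain ⟨α, β, h1, h2, h3⟩ := h
    rw [← hu] at h3
    have h4 : (α + n * β) * H = u := by exact_mod_cast h3
    have h5 : (1 + n * 1) * 1 ≤ (α + n * β) * H :=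
      Nat.mul_le_mul (add_le_add h1 (Nat.mul_le_mul_left n h2)) hH0
    omega
  · right
    obtain ⟨rfl, L'⟩ := h
    refine ⟨σ, by omega, ?_, L'⟩
    push_cast at hK
    omega
  · left
    obtain ⟨s, hs, h1, h2, h3, ⟨μ, hμ, hμn, h4, hch⟩, μ0, A0, hμ0n, hA0, hL0⟩ := h
    rw [← hu] at h1
    have hsH : s * H = u := by exact_mod_cast h1
    have hH2 : 2 ≤ H := by
      by_contra hcon
      have : H = 1 := by omega
      subst this
      exact h3 (one_dvd K)
    have hKz : (0 : ℤ) < K := by exact_mod_cast hK0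
    have hHz : (0 : ℤ) < H := by exact_mod_cast hH0
    have hρz : (0 : ℤ) < ρ := by exact_mod_cast hρ
    have hμz : (μ : ℤ) < n := by exact_mod_cast hμn
    have h4z : (H : ℤ) < μ * K := by exact_mod_cast h4
    have h2z : (H : ℤ) * (1 + ρ * s) = K * n := by exact_mod_cast h2
    have hmain : (ρ : ℤ) * u = n * K - H := by
      rw [← h1]; linear_combination h2z
    have hmainN : ρ * u + H = n * K := by zify; linarith
    -- the root zero
    have hzero : ∀ (μ1 : ℕ) (A1 : ℤ), μ1 < n → (ρ : ℤ) * A1 = H + σ * μ1 → H < μ1 * K →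
        ¬ Live k a b l A1 μ1 ρ σ := by
      intro μ1 A1 g1 e1 g2 L'
      have g2z : (H : ℤ) < μ1 * K := by exact_mod_cast g2
      have g1z : (μ1 : ℤ) < n := by exact_mod_cast g1
      obtain ⟨uz, huz⟩ : ∃ uz : ℤ, uz = l * μ1 - A1 := ⟨_, rfl⟩
      have e2 : (ρ : ℤ) * uz = μ1 * K - H := by
        rw [huz, hK]
        linear_combination -e1
      have e3 : 0 < uz := by
        have : (0 : ℤ) < ρ * uz := by rw [e2]; linarith
        exact pos_of_mul_pos_right this hρz.le
      have e4 : uz < u := by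
        have h5 : (ρ : ℤ) * uz < ρ * u := by
          rw [e2, hmain]
          have := mul_lt_mul_of_pos_right g1z hKz
          linarith
        exact lt_of_mul_lt_mul_left h5 hρz.le
      obtain ⟨u', hu'⟩ := Int.eq_ofNat_of_zero_le e3.le
      subst hu'
      have e5 : u' < u := by exact_mod_cast e4
      have e6 : 0 < u' := by exact_mod_cast e3
      have h7 : ρ * u' + H = μ1 * K := by zify; linarith
      have h8 := zero_small hun hH0 hmainN h7 g1
      rcases ih u' e5 L' huz e6 (by omega) (by omega) with h9 | h9 <;> omega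
    rcases hch with ⟨_, A', e1, L'⟩ | ⟨h8, L'⟩
    · exact hzero μ A' hμn e1 h4 L'
    · obtain ⟨uz, huz⟩ : ∃ uz : ℤ, uz = μ * K - H := ⟨_, rfl⟩
      have e3 : 0 < uz := by rw [huz]; linarith
      have hρμz : (ρ : ℤ) * μ ≤ n := by exact_mod_cast h8
      have hid : (ρ : ℤ) * (u - uz) = K * (n - ρ * μ) + (ρ - 1) * H := by
        rw [mul_sub, hmain, huz]; ring
      have e4 : uz < u := by
        have h5 : (0 : ℤ) < ρ * (u - uz) := by
          rw [hid]
          rcases Nat.lt_or_ge ρ 2 with h9 | h9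
          · have h10 : ρ = 1 := by omega
            subst h10
            have h11 : (0 : ℤ) < K * (n - ((1 : ℕ) : ℤ) * μ) := by
              apply mul_pos hKz
              push_cast
              linarith
            push_cast at h11 ⊢
            linarith
          · have h10 : (2 : ℤ) ≤ ρ := by exact_mod_cast h9
            have h11 : (0 : ℤ) ≤ K * (n - ρ * μ) := mul_nonneg hKz.le (by linarith)
            have h12 : (0 : ℤ) < (ρ - 1) * H := mul_pos (by linarith) hHz
            linarith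
        have := pos_of_mul_pos_right h5 hρz.le
        linarith
      obtain ⟨u', hu'⟩ := Int.eq_ofNat_of_zero_le e3.le
      subst hu'
      have e5 : u' < u := by exact_mod_cast e4
      have e6 : 0 < u' := by exact_mod_cast e3
      have h6 : μ < u' := by
        rcases ih u' e5 L' (by rw [huz, hK]; ring) e6 (by omega) (by omega) with h9 | h9
        · exact h9
        · omega
      have h7 : u' + H = μ * K := by zify; linarith
      have hcop' : Nat.Coprime K ρ := by
        apply Nat.isCoprime_iff_coprime.1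
        obtain ⟨x, y, hxy⟩ := Nat.isCoprime_iff_coprime.2 hc
        refine ⟨-y, x + y * l, ?_⟩
        rw [hK]
        linear_combination hxy
      have h12 : (ρ : ℤ) * (A - A0) = σ * ((n : ℤ) - μ0) := by
        rw [mul_sub, hA0]
        linarith
      have h13 : ρ ∣ n - μ0 := by
        rw [← Int.natCast_dvd_natCast, Nat.cast_sub hμ0n.le]
        have h14 : IsCoprime (ρ : ℤ) (σ : ℤ) := Nat.isCoprime_iff_coprime.2 hc
        apply h14.dvd_of_dvd_mul_left
        exact ⟨A - A0, h12.symm⟩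
      obtain ⟨S, hS⟩ := h13
      have hS' : n = μ0 + ρ * S := by omega
      have h15 : μ0 * K ≤ H := by
        by_contra h15
        push Not at h15
        have h16 : 1 ≤ μ0 := by
          rcases Nat.eq_zero_or_pos μ0 with h17 | h17
          · subst h17; omega
          · exact h17
        exact hzero μ0 A0 hμ0n hA0 h15 (hL0 h16)
      exact fin_check h56 hu9 hun hn12 hex' hs hH2 hsH hmainN h3 hρ hμ h8 h7 h6 hS' h15 hcop'

theorem arith_cross11 {ρ σ K H n μ0 μ s S u' : ℕ} {A A0 : ℤ} (hσ : 1 ≤ σ) (hK0 : 0 < K)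
    (hK : (K : ℤ) = ρ - σ) (hH : (H : ℤ) = ρ * A - σ * n) (hA01 : 1 ≤ A0)
    (hs : 1 ≤ s) (hH2 : 2 ≤ H) (hu9 : 9 ≤ s * H) (hu11 : s * H ≤ 11) (hS1 : n = μ0 + ρ * S)
    (hS2 : A = A0 + σ * S)
    (hAX : A * K = H * (1 + σ * s)) (hSX : A * s + 1 ≤ S * (1 + σ * s))
    (hXA : 1 + (σ : ℤ) * s ≤ A - 1) (hμS : μ ≤ S) (hu' : μ * K = u' + H) (hu0 : 0 < u')
    (h6 : u' ≤ 5 → μ < u') :
    (A = 6 ∧ n = 15) ∨ (u' ≤ 9 ∧ u' ≤ μ ∧ μ ≤ 12 ∧ ¬ (u' = 8 ∧ μ = 12)) := by
  have hKz : (0 : ℤ) < K := by exact_mod_cast hK0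
  have hHz : (0 : ℤ) < H := by exact_mod_cast (by omega : 0 < H)
  have hσz : (1 : ℤ) ≤ σ := by exact_mod_cast hσ
  have hsz : (1 : ℤ) ≤ s := by exact_mod_cast hs
  have hX0 : (0 : ℤ) < 1 + σ * s := by positivity
  have hKH : K < H := by
    have h1 : (A - 1 + 1) * K < (A - 1 + 1) * (H : ℤ) := by
      have h2 : (H : ℤ) * (1 + σ * s) ≤ H * (A - 1) := mul_le_mul_of_nonneg_left hXA hHz.le
      calc (A - 1 + 1) * (K : ℤ) = A * K := by ring
        _ = H * (1 + σ * s) := hAX
        _ ≤ H * (A - 1) := h2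
        _ < (A - 1 + 1) * H := by linarith
    exact_mod_cast lt_of_mul_lt_mul_left h1 (by linarith)
  have hSK : (s : ℤ) * H < S * K := by
    have h1 : (K : ℤ) * (A * s) < K * (S * (1 + σ * s)) := by
      apply mul_lt_mul_of_pos_left _ hKz
      linarith
    have h2 : (s * H : ℤ) * (1 + σ * s) < (S * K) * (1 + σ * s) := by
      linear_combination h1 - s * hAX
    exact lt_of_mul_lt_mul_right h2 hX0.le
  have hid : (σ : ℤ) * (S * K - s * H) = H - A0 * K := by
    rw [hS2] at hAX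
    linear_combination hAX
  have hσ10 : σ ≤ 10 := by
    have h1 : (σ : ℤ) * 1 ≤ σ * (S * K - s * H) :=
      mul_le_mul_of_nonneg_left (by linarith) (by linarith)
    have h2 : (1 : ℤ) * K ≤ A0 * K := mul_le_mul_of_nonneg_right hA01 hKz.le
    have h3 : 1 * H ≤ s * H := Nat.mul_le_mul_right H hs
    have h4 : (H : ℤ) ≤ 11 := by exact_mod_cast (by omega : H ≤ 11)
    have h5 : (1 : ℤ) ≤ K := by exact_mod_cast hK0
    have : (σ : ℤ) ≤ 10 := by linarith
    exact_mod_cast this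
  have hs5 : s ≤ 5 := by
    have : s * 2 ≤ s * H := Nat.mul_le_mul_left s hH2
    omega
  have hH11 : H ≤ 11 := by
    have : 1 * H ≤ s * H := Nat.mul_le_mul_right H hs
    omega
  clear hX0 hKz hHz hσz hsz hXA hSX
  obtain rfl : ρ = K + σ := by omega
  interval_cases s <;> interval_cases H <;> try omega
  all_goals interval_cases K <;> try omega
  all_goals interval_cases σ <;> omega

/-- The vertices without denominators above the diagonal with `n - A ≤ 11`. -/
theorem Lv1.gap11 {a b : ℕ} (ha : 2 ≤ a) (hb : 2 ≤ b) (hcop : Nat.Coprime a b) :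
    ∀ (u : ℕ) {A : ℤ} {n ρ0 σ0 : ℕ}, Lv1 k a b A n ρ0 σ0 → (u : ℤ) = n - A → 0 < u → u ≤ 11 →
      (A = 4 ∧ n = 12) ∨ (A = 6 ∧ n = 15) := by
  intro u
  induction u using Nat.strong_induction_on with
  | _ u ih =>
  intro A n ρ0 σ0 L hu hu0 hu11
  have hge := L.gap ha hb hcop u hu hu0
  rcases Nat.eq_or_lt_of_le hge with h8 | h8
  · exact Or.inl (L.gap8 ha hb hcop (by rw [← hu, ← h8]; norm_num))
  have hu0z : (0 : ℤ) < u := by exact_mod_cast hu0
  obtain ⟨ρ, σ, K, H, s, μ0, A0, hρ2, hσ, hc, hK0, hH0, hK, hH, hs, htop, hdvd, e1, hA01, hA0A,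
    hμ0n, h⟩ := L.step ha hb hcop (by linarith)
  have hρz : (0 : ℤ) < ρ := by exact_mod_cast (by omega : 0 < ρ)
  have hKz : (0 : ℤ) < K := by exact_mod_cast hK0
  have htz : (H : ℤ) * (1 + ρ * s) = K * n := by exact_mod_cast htop
  have hmain : (ρ : ℤ) * u = n * K - H := by
    rw [hu, hK, hH]; ring
  have hsH : s * H = u := by
    have h1 : (ρ : ℤ) * (s * H) = ρ * u := by rw [hmain]; linear_combination htz
    have h2 := mul_left_cancel₀ hρz.ne' h1
    exact_mod_cast h2
  rcases h with ⟨h11, h12, L'⟩ | ⟨h11, μ, hμ, h12, h13, L'⟩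
  · -- above the diagonal
    exfalso
    obtain ⟨u0, hu0'⟩ := Int.eq_ofNat_of_zero_le (by linarith : 0 ≤ (μ0 : ℤ) - A0)
    have h1 : (u0 : ℤ) < u := by
      have h2 : (ρ : ℤ) * u0 < ρ * u := by
        rw [hmain, ← hu0']
        have h3 : (μ0 : ℤ) < n := by exact_mod_cast hμ0n
        have h4 : (μ0 : ℤ) * K < n * K := mul_lt_mul_of_pos_right h3 hKz
        have h5 : (ρ : ℤ) * (μ0 - A0) = μ0 * K - H := by rw [mul_sub, e1, hK]; ring
        linarith
      exact lt_of_mul_lt_mul_left h2 hρz.le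
    have h1' : u0 < u := by exact_mod_cast h1
    have h6 := ih u0 h1' L' hu0'.symm (by omega) (by omega)
    have hH11 : H ≤ 11 := by
      have : 1 * H ≤ s * H := Nat.mul_le_mul_right H hs
      omega
    have hs11 : s ≤ 11 := by
      have : s * 1 ≤ s * H := Nat.mul_le_mul_left s hH0
      omega
    rcases h6 with ⟨h6, h7⟩ | ⟨h6, h7⟩
    · -- `4 ∣ H`
      subst h6 h7
      push_cast at e1
      clear htz hmain htop hdvd hu ih hK hH
      subst hsH
      interval_cases H <;> interval_cases s <;> omega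
    · subst h6 h7
      have h9 : (u0 : ℤ) = 9 := by rw [← hu0']; norm_num
      push_cast at e1
      clear htz hmain htop hdvd hu ih hK hH
      subst hsH
      interval_cases H <;> interval_cases s <;> omega
  · -- the edge crosses the diagonal
    obtain ⟨hμ2, _, S0, hS1, hS2, hAX, hSX, _, hXA, hS3⟩ := cross_arith hσ hK0 hK hH hc e1 hA01 h11
      hs htop h13 h12
    have hH2 : 2 ≤ H := by
      by_contra hcon
      have : H = 1 := by omega
      subst this
      exact hdvd (one_dvd K)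
    have h12z : (H : ℤ) < μ * K := by exact_mod_cast h12
    obtain ⟨u', hu'⟩ := Int.eq_ofNat_of_zero_le (by linarith : 0 ≤ (μ : ℤ) * K - H)
    have h3 : μ * K = u' + H := by zify; linarith
    have hval : (ρ : ℤ) * μ - (H + σ * μ) = u' := by rw [← hu', hK]; ring
    rcases arith_cross11 hσ hK0 hK hH hA01 hs hH2 (by omega) (by omega) hS1 hS2 hAX hSX hXA hS3 h3
      (by omega) (fun h4 => Live.small ha hb hcop u' L' hval.symm (by omega) h4) with
      h4 | ⟨g1, g2, g3, g4⟩
    · exact Or.inr h4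
    · exfalso
      rcases Live.small2 ha hb hcop u' L' hval.symm (by omega) g1 g3 with g5 | g5
      · omega
      · exact g4 g5

/-- If `n < m + 12 a` then the vertex is `(4, 12)` or `(6, 15)`. -/
theorem gap_corner12 {a b p q : ℕ} (ha : 2 ≤ a) (hb : 2 ≤ b) (hcop : Nat.Coprime a b)
    (hp : 0 < p) (hpq : p < q) {F G : MvPolynomial (Fin 2) k} {c : k} (hc : c ≠ 0)
    (hJ : pderiv 0 F * pderiv 1 G - pderiv 1 F * pderiv 0 G = C c)
    (hF1 : ∀ d, coeff d F ≠ 0 → d 1 ≤ a * q ∧ d 0 + d 1 ≤ a * p + a * q)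
    (hF2 : coeff (ee (a * p) (a * q)) F ≠ 0)
    (hF3 : ∀ i ≤ a * q, ((X 0 + X 1 : MvPolynomial (Fin 2) k) ^ (a * q - i)) ∣
      homogeneousComponent (a * p + a * q - i) F)
    (hG1 : ∀ d, coeff d G ≠ 0 → d 1 ≤ b * q ∧ d 0 + d 1 ≤ b * p + b * q)
    (hG2 : coeff (ee (b * p) (b * q)) G ≠ 0) (hq : q < p + 12) :
    (p = 4 ∧ 12 ≤ q) ∨ (p = 6 ∧ 15 ≤ q) := by
  obtain ⟨μ, h1, h2, L⟩ := main_start ha (by omega) hcop hp hpq hc hJ hF1 hF2 hF3
    (fun d hd => (hG1 d hd).2) hG2
  have h3 := L.gap11 ha hb hcop (μ - p) (by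
    rw [Nat.cast_sub h1.le]) (by omega) (by omega)
  omega

end Pool.Agent.H863.TZ
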