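import Pool.Agent.H863.TZ.Main

/-!
The numerical content of one step in the tree of vertices.
-/

set_option autoImplicit false
set_option linter.unusedSectionVars false
set_option linter.unusedSimpArgs false

namespace Pool.Agent.H863.TZ

open MvPolynomial
open Pool.Agent.TH207 Pool.Agent.TH207.Ser

/-- The terminal direction as a linear relation. -/
theorem term_lin {k : Type*} [Field k] [CharZero k] {a b : ℕ} {D d : ℤ} {e : ℕ} {c : k}
    {F G : MvPolynomial (Fin 2) k} {A : ℤ} {n iF iG : ℕ} {ρ σ K H : ℕ}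
    (ha : 2 ≤ a) (hb : 2 ≤ b) (hn : 1 ≤ n) (hc : c ≠ 0)
    (hB : Bk D d F G = C c * X 0 ^ e) (X1 : Nx a b D d e F G A n iF iG ρ σ K H)
    (hT : (a + b) * H = K) {u : ℕ} (hu : (u : ℤ) = (D + d - e) * n - A) :
    ∃ α β : ℕ, 1 ≤ α ∧ 1 ≤ β ∧ (α + n * β) * H = u ∧
      ((ρ * β = a ∧ ρ * α + 1 = n * b) ∨ (ρ * β = b ∧ ρ * α + 1 = n * a)) := by
  have h7 := rho_dvd hc hB X1 hT
  have h6 : ρ * u + H = n * (a + b) * H := by
    have h2 := X1.hu
    rw [← hu] at h2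
    rw [← hT] at h2
    push_cast at h2
    zify
    linear_combination h2
  have hH := X1.hH0
  have hρ := X1.hρ
  have key : ∀ x y : ℕ, 2 ≤ x → 2 ≤ y → ρ ∣ x → (ρ : ℤ) ∣ (n * y : ℕ) - 1 →
      ρ * u + H = n * (x + y) * H → ∃ α β : ℕ, 1 ≤ α ∧ 1 ≤ β ∧ (α + n * β) * H = u ∧
        ρ * β = x ∧ ρ * α + 1 = n * y := by
    intro x y hx0 hy hx hd he
    obtain ⟨β, hβ⟩ := hx
    have hNy : 1 * 2 ≤ n * y := Nat.mul_le_mul hn hy
    have hd' : ρ ∣ n * y - 1 := by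
      rw [← Int.natCast_dvd_natCast, Nat.cast_sub (by omega)]
      exact_mod_cast hd
    obtain ⟨α, hα⟩ := hd'
    have hβ1 : 1 ≤ β := by
      rcases Nat.eq_zero_or_pos β with h | h
      · subst h; omega
      · exact h
    have hα1 : 1 ≤ α := by
      rcases Nat.eq_zero_or_pos α with h | h
      · subst h; omega
      · exact h
    have hNy' : n * y = ρ * α + 1 := by omega
    refine ⟨α, β, hα1, hβ1, ?_, hβ.symm, hNy'.symm⟩
    have h8 : ρ * u + H = (ρ * (α + n * β) + 1) * H := by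
      rw [he, mul_add, hNy', hβ]
      ring
    have h9 : ρ * u = ρ * ((α + n * β) * H) := by
      have : (ρ * (α + n * β) + 1) * H = ρ * ((α + n * β) * H) + H := by ring
      omega
    exact (Nat.eq_of_mul_eq_mul_left hρ h9).symm
  rcases h7 with ⟨h8, h9⟩ | ⟨h8, h9⟩
  · obtain ⟨α, β, e1, e2, e3, e4, e5⟩ := key a b ha hb h8 h9 h6
    exact ⟨α, β, e1, e2, e3, Or.inl ⟨e4, e5⟩⟩
  · obtain ⟨α, β, e1, e2, e3, e4, e5⟩ := key b a hb ha h8 h9 (by rw [h6, add_comm a b])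
    exact ⟨α, β, e1, e2, e3, Or.inr ⟨e4, e5⟩⟩

variable {k : Type*} [Field k] [CharZero k]

/-- There is a vertex with the given numbers. -/
def Live (k : Type*) [Field k] [CharZero k] (a b : ℕ) (l A : ℤ) (n ρ0 σ0 : ℕ) : Prop :=
  ∃ (D d : ℤ) (e : ℕ) (c : k) (F G : MvPolynomial (Fin 2) k) (iF iG : ℕ),
    St a b D d e c F G ρ0 σ0 A n iF iG ∧ D + d - e = l

/-- A vertex which comes from a root of multiplicity `μ`. -/
def Child (k : Type*) [Field k] [CharZero k] (a b : ℕ) (l : ℤ) (n ρ σ H μ : ℕ) : Prop :=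
  (μ < n ∧ ∃ A' : ℤ, ρ * A' = H + σ * μ ∧ Live k a b l A' μ ρ σ) ∨
  (ρ * μ ≤ n ∧ Live k a b (ρ * l) (H + σ * μ) μ 1 σ)

/-- One more root. -/
theorem Fm_other [IsAlgClosed k] {a b : ℕ} {F G : MvPolynomial (Fin 2) k} {n iF iG ρ σ K H : ℕ}
    {f g h : Polynomial k} {c' : k} (ha : 2 ≤ a)
    (Y : Fm a b F G n iF iG ρ σ K H f g h c') {r : k} {μ : ℕ}
    (hr : Polynomial.rootMultiplicity r f = a * μ) (hμ : μ < n) :
    ∃ r' μ', Polynomial.rootMultiplicity r' f = a * μ' ∧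
      Polynomial.rootMultiplicity r' g = b * μ' ∧ 1 ≤ μ' ∧ μ + μ' ≤ n := by
  classical
  have hsum := sum_mult f
  rw [Y.hfd] at hsum
  have hex : ∃ r', r' ≠ r ∧ r' ∈ f.roots.toFinset := by
    by_contra hcon
    push Not at hcon
    have h1 : f.roots.toFinset ⊆ {r} := by
      intro x hx
      rw [Finset.mem_singleton]
      by_contra hne
      exact hcon x hne hx
    have h2 : ∑ x ∈ f.roots.toFinset, Polynomial.rootMultiplicity x f ≤
        ∑ x ∈ {r}, Polynomial.rootMultiplicity x f := Finset.sum_le_sum_of_subset h1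
    rw [Finset.sum_singleton, hr, hsum] at h2
    have h3 := Nat.le_of_mul_le_mul_left h2 (by omega)
    omega
  obtain ⟨r', h1, h2⟩ := hex
  obtain ⟨μ', h3, h4⟩ := Y.hm r'
  refine ⟨r', μ', h3, h4, ?_, ?_⟩
  · rw [Multiset.mem_toFinset, Polynomial.mem_roots Y.hf0] at h2
    have h5 := (Polynomial.rootMultiplicity_pos Y.hf0).2 h2
    rw [h3] at h5
    rcases Nat.eq_zero_or_pos μ' with h6 | h6
    · rw [h6, mul_zero] at h5; omega
    · exact h6
  · have h5 := sum_mult_le f {r, r'}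
    rw [Finset.sum_pair h1.symm, hr, h3, Y.hfd, ← mul_add] at h5
    exact Nat.le_of_mul_le_mul_left h5 (by omega)

/-- One step. -/
theorem Live.step [IsAlgClosed k] {a b : ℕ} (ha : 2 ≤ a) (hb : 2 ≤ b) (hcop : Nat.Coprime a b)
    {l A : ℤ} {n ρ0 σ0 : ℕ} (L : Live k a b l A n ρ0 σ0) (hu : 0 < l * n - A) :
    ∃ ρ σ K H : ℕ, 0 < ρ ∧ Nat.Coprime ρ σ ∧ σ0 * ρ < σ * ρ0 ∧ 0 < K ∧ 0 < H ∧
      (K : ℤ) = ρ * l - σ ∧ (H : ℤ) = ρ * A - σ * n ∧
      ((∃ α β : ℕ, 1 ≤ α ∧ 1 ≤ β ∧ ((α : ℤ) + n * β) * H = l * n - A ∧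
        ((ρ * β = a ∧ ρ * α + 1 = n * b) ∨ (ρ * β = b ∧ ρ * α + 1 = n * a))) ∨
      (∃ μ : ℕ, 1 ≤ μ ∧ H < μ * K ∧ Child k a b l n ρ σ H μ ∧
        (μ < n → ∃ μ', 1 ≤ μ' ∧ μ + μ' ≤ n ∧ Child k a b l n ρ σ H μ'))) := by
  obtain ⟨D, d, e, c, F, G, iF, iG, S, hl⟩ := L
  subst hl
  obtain ⟨ρ, σ, K, H, hlt, X1⟩ := exists_nx ha S hu
  refine ⟨ρ, σ, K, H, X1.hρ, X1.hcop, hlt, X1.hK0, X1.hH0, X1.hK, X1.hH, ?_⟩
  rcases Nat.lt_or_ge K ((a + b) * H) with hT | hT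
  · right
    obtain ⟨f, g, h, c', Y⟩ := X1.form ha hcop S hT
    have hρz : (0 : ℤ) < ρ := by exact_mod_cast X1.hρ
    have h0 : H < n * K := by
      have h1 : (0 : ℤ) < ρ * ((D + d - e) * n - A) := mul_pos hρz hu
      rw [X1.hu] at h1
      zify; linarith
    obtain ⟨r, μ, h1, h2, h3, hμ⟩ := Y.root ha S.hn X1.hK0 h0
    have child : ∀ (r : k) (μ : ℕ), 1 ≤ μ → Polynomial.rootMultiplicity r f = a * μ →
        Polynomial.rootMultiplicity r g = b * μ → Child k a b (D + d - e) n ρ σ H μ := by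
      intro r μ hμ h1 h2
      by_cases hr : r = 0
      · subst hr
        left
        obtain ⟨A', iF', iG', e1, _, S'⟩ := Y.step0 hcop S X1 hμ h1 h2
        refine ⟨?_, A', e1, D, d, e, c, F, G, iF', iG', S', rfl⟩
        have := Y.hz
        rw [h1] at this
        exact Nat.lt_of_mul_lt_mul_left this
      · right
        obtain ⟨iF', iG', _, S'⟩ := Y.step1 S X1 hμ h1 h2
        refine ⟨?_, _, _, _, _, _, _, iF', iG', S', by push_cast; ring⟩
        have horb := orbit X1.hρ Y.hf0 Y.hres hr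
        rw [h1, Y.hfd] at horb
        have h4 : a * (ρ * μ) ≤ a * n := by
          calc a * (ρ * μ) = ρ * (a * μ) := by ring
            _ ≤ a * n := by omega
        exact Nat.le_of_mul_le_mul_left h4 (by omega)
    refine ⟨μ, hμ, h3, child r μ hμ h1 h2, fun hlt => ?_⟩
    obtain ⟨r', μ', g1, g2, g3, g4⟩ := Fm_other ha Y h1 hlt
    exact ⟨μ', g3, g4, child r' μ' g3 g1 g2⟩
  · left
    have hT' : (a + b) * H = K := le_antisymm hT X1.hle
    obtain ⟨u, hu'⟩ := Int.eq_ofNat_of_zero_le hu.le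
    obtain ⟨α, β, e1, e2, e3, e4⟩ := term_lin ha hb S.hn S.hc S.hB X1 hT' hu'.symm
    refine ⟨α, β, e1, e2, ?_, e4⟩
    rw [hu']
    exact_mod_cast e3

/-- The bound for the value `u`. -/
theorem Live.rel [IsAlgClosed k] {a b : ℕ} (ha : 2 ≤ a) (hcop : Nat.Coprime a b)
    {l A : ℤ} {n ρ0 σ0 : ℕ} (L : Live k a b l A n ρ0 σ0) (hu : 0 < l * n - A) :
    Rel a b (l * n - A) n := by
  obtain ⟨D, d, e, c, F, G, iF, iG, S, hl⟩ := L
  subst hl
  obtain ⟨u, hu'⟩ := Int.eq_ofNat_of_zero_le hu.le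
  rw [hu']
  refine bound2 ha hcop u (D + d - e).toNat S hu'.symm (by
    have : (0 : ℤ) < u := by rw [← hu']; exact hu
    exact_mod_cast this) ?_
  have h1 := Int.self_le_toNat (D + d - e)
  have h2 : (0 : ℤ) ≤ ρ0 := by positivity
  have h3 : (0 : ℤ) ≤ σ0 := by positivity
  have h4 := mul_le_mul_of_nonneg_right h1 h2
  linarith

/-- The value one is impossible. -/
theorem Live.dead1 [IsAlgClosed k] {a b : ℕ} (ha : 2 ≤ a) (hb : 2 ≤ b) (hcop : Nat.Coprime a b)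
    {l A : ℤ} {n ρ0 σ0 : ℕ} (L : Live k a b l A n ρ0 σ0) (hu : l * n - A = 1) : False := by
  have h1 := L.rel ha hcop (by omega)
  rw [hu] at h1
  obtain ⟨α, β, N, e1, e2, e3, _, e4, _⟩ := h1.linear ha hb
  have h2 : 1 * 1 ≤ N * β := Nat.mul_le_mul e3 e2
  have h3 : α + N * β ≤ 1 := by exact_mod_cast e4
  omega

/-- Induction over the translations. -/
theorem trans_ind {a b : ℕ} {P : Prop} {l A : ℤ} {n : ℕ}
    (hstep : ∀ ρ0 σ0 : ℕ, Live k a b l A n ρ0 σ0 →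
      P ∨ ∃ σ : ℕ, σ0 < σ * ρ0 ∧ (σ : ℤ) < l ∧ Live k a b l A n 1 σ) {ρ0 σ0 : ℕ}
    (L : Live k a b l A n ρ0 σ0) : P := by
  have key : ∀ (t ρ0 σ0 : ℕ), l * ρ0 - σ0 ≤ t * ρ0 → Live k a b l A n ρ0 σ0 → P := by
    intro t
    induction t with
    | zero =>
      intro ρ0 σ0 h1 L
      rcases hstep ρ0 σ0 L with h2 | ⟨σ, h3, h4, h5⟩
      · exact h2
      · exfalso
        have h3z : (σ0 : ℤ) < σ * ρ0 := by exact_mod_cast h3
        have h6 : (0 : ℤ) ≤ (l - σ) * ρ0 := mul_nonneg (by linarith) (by positivity)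
        push_cast at h1
        linarith
    | succ t ih =>
      intro ρ0 σ0 h1 L
      rcases hstep ρ0 σ0 L with h2 | ⟨σ, h3, h4, h5⟩
      · exact h2
      · apply ih 1 σ _ h5
        have h3z : (σ0 : ℤ) < σ * ρ0 := by exact_mod_cast h3
        have hρ0 : (0 : ℤ) ≤ ρ0 := by positivity
        push_cast at h1 ⊢
        by_contra h7
        push Not at h7
        have h8 : (t + 1 : ℤ) * ρ0 ≤ (l - σ) * ρ0 := mul_le_mul_of_nonneg_right (by linarith) hρ0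
        linarith
  apply key l.toNat ρ0 σ0 _ L
  have h1 := Int.self_le_toNat l
  have h2 : (0 : ℤ) ≤ ρ0 := by positivity
  have h3 : (0 : ℤ) ≤ σ0 := by positivity
  have h4 := mul_le_mul_of_nonneg_right h1 h2
  linarith

end Pool.Agent.H863.TZ
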