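import Pool.Agent.H863.TZ.Level

/-!
The divisibility relation for trapezoidal pairs.
-/

set_option autoImplicit false
set_option linter.unusedSectionVars false
set_option linter.unusedSimpArgs false

namespace Pool.Agent.H863.TZ

open MvPolynomial
open Pool.Agent.TH207 Pool.Agent.TH207.Ser Pool.Agent.TH207.Tz

variable {k : Type*} [Field k] [CharZero k]

/-- The main consequence of the local theory in the direction `(1, 0)`. -/
theorem main0_rel [IsAlgClosed k] {a b : ℕ} (ha : 2 ≤ a) (hb : 1 ≤ b) (hcop : Nat.Coprime a b)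
    {p : ℕ} (hp : 0 < p) {c : k} (hc : c ≠ 0) {F G : MvPolynomial (Fin 2) k}
    (hF : Le (a * p) 0 F) (hG : Le (b * p) 0 G)
    (h : pderiv 0 F * pderiv 1 G - pderiv 1 F * pderiv 0 G = C c)
    (hf0 : tp (a * p) 0 F ≠ 0) (hg0 : tp (b * p) 0 G ≠ 0) :
    ∃ q, (tp (a * p) 0 F).natDegree = a * q ∧ (tp (b * p) 0 G).natDegree = b * q ∧ p ≠ q ∧
      (p < q → Rel a b (min ((p : ℤ) ^ 2 - 3 * p + 1) ((q : ℤ) - p - 1)) (p - 1)) := by
  have h1 : 2 * 1 ≤ a * p := Nat.mul_le_mul ha hp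
  have h2 : 1 * 1 ≤ b * p := Nat.mul_le_mul hb hp
  have hB := Bk_W hF hG (Nat.zero_le _) (Nat.zero_le _) (by omega) h
  obtain ⟨q, e1, e2, e3, _, e5⟩ := start ha hb hcop (A := p) (l := 1) (e := a * p + b * p - 1)
    hc (by simpa using hB) (by rw [add_mul]; omega) (by omega) hp one_pos hf0 hg0
  refine ⟨q, e1, e2, by rwa [mul_one] at e3, fun hlt => ?_⟩
  obtain ⟨r, μ, g1, g2, _, S⟩ := e5 (by rwa [mul_one])
  have h3 : ∀ m, coeff m (W (a * p) 0 F) ≠ 0 → m 0 ≤ a * p := by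
    intro m hm
    obtain ⟨m', _, h4, _⟩ := exists_of_coeff_W hm
    omega
  have h4 : ∀ m, coeff m (W (b * p) 0 G) ≠ 0 → m 0 ≤ b * p := by
    intro m hm
    obtain ⟨m', _, h4, _⟩ := exists_of_coeff_W hm
    omega
  have h5 := shf_support (r := r) h3
  have h6 := shf_support (r := r) h4
  have h7 := level_one2 ha hb hcop (D := ((a * p : ℕ) : ℤ)) (d := ((b * p : ℕ) : ℤ))
    (e := a * p + b * p - 1) (by
      rw [Nat.cast_sub (by omega)]; push_cast; ring)
    (fun m hm => by exact_mod_cast h5 m hm) (fun m hm => by exact_mod_cast h6 m hm) μ le_rfl S (by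
      have : p < μ := by omega
      exact_mod_cast this)
  refine h7.mono (min_le_min le_rfl ?_) le_rfl
  have : (μ : ℤ) ≤ q := by exact_mod_cast g2
  linarith
theorem main_rel [IsAlgClosed k] {a b p q : ℕ} (ha : 2 ≤ a) (hb : 1 ≤ b) (hcop : Nat.Coprime a b)
    (hp : 0 < p) (hpq : p < q) {F G : MvPolynomial (Fin 2) k} {c : k} (hc : c ≠ 0)
    (hJ : pderiv 0 F * pderiv 1 G - pderiv 1 F * pderiv 0 G = C c)
    (hF1 : ∀ d, coeff d F ≠ 0 → d 1 ≤ a * q ∧ d 0 + d 1 ≤ a * p + a * q)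
    (hF2 : coeff (ee (a * p) (a * q)) F ≠ 0)
    (hF3 : ∀ i ≤ a * q, ((X 0 + X 1 : MvPolynomial (Fin 2) k) ^ (a * q - i)) ∣
      homogeneousComponent (a * p + a * q - i) F)
    (hG1 : ∀ d, coeff d G ≠ 0 → d 0 + d 1 ≤ b * p + b * q)
    (hG2 : coeff (ee (b * p) (b * q)) G ≠ 0) :
    Rel a b (min ((p : ℤ) ^ 2 - 3 * p + 1) ((q : ℤ) - p - 1)) (p - 1) := by
  have hFt : F.totalDegree ≤ a * p + a * q := tot_le fun d hd => (hF1 d hd).2
  have hGt : G.totalDegree ≤ b * p + b * q := tot_le hG1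
  have hGt' : G.totalDegree = b * p + b * q := by
    apply le_antisymm hGt
    have := le_tot hG2
    rwa [ee_zero, ee_one] at this
  obtain ⟨κ, hκ, hT⟩ := top_form hF1 hF2 (by
    have := hF3 0 (Nat.zero_le _)
    simpa using this)
  obtain ⟨t1, t2⟩ := top_z hFt hκ hT
  have hJ' : pderiv 0 (ph F) * pderiv 1 (ph G) - pderiv 1 (ph F) * pderiv 0 (ph G) = C c := by
    rw [jac_ph, hJ, ph_C]
  have hG3 : ∃ d, coeff d (ph G) ≠ 0 ∧ d 0 + d 1 = b * p + b * q := by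
    have h0 : ph G ≠ 0 := by
      intro h0
      have h1 := ps_ph G
      rw [h0, map_zero] at h1
      rw [← h1, coeff_zero] at hG2
      exact hG2 rfl
    have h1 : ((ph G).support).Nonempty := by
      rw [Finset.nonempty_iff_ne_empty, Ne, support_eq_empty]; exact h0
    obtain ⟨d, h2, h3⟩ := Finset.exists_mem_eq_sup (ph G).support h1
      (fun m => m.sum (fun _ e => e))
    refine ⟨d, mem_support_iff.1 h2, ?_⟩
    rw [← hGt', ← totalDegree_ph' G]
    unfold totalDegree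
    rw [h3, fsum]
  obtain ⟨r1, r2, r3, r4⟩ := pair ha hb hp (by omega) hc hJ'
    (deg_z hFt hF3) (Le.of_tot ((totalDegree_ph F).trans hFt)) t1 t2
    (Le.of_tot ((totalDegree_ph G).trans hGt)) hG3
  obtain ⟨q', s1, _, _, s4⟩ := main0_rel ha hb hcop hp hc (deg_z hFt hF3) r1 hJ' r3 r4
  have hqq : q' = q := by
    rw [r2] at s1
    exact (Nat.eq_of_mul_eq_mul_left (by omega) s1).symm
  rw [hqq] at s4
  exact s4 hpq


/-- The relation as a linear equation. -/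
theorem Rel.linear {a b : ℕ} (ha : 2 ≤ a) (hb : 2 ≤ b) {U M : ℤ} (h : Rel a b U M) :
    ∃ α β N : ℕ, 1 ≤ α ∧ 1 ≤ β ∧ 1 ≤ N ∧ (N : ℤ) ≤ M ∧ ((α + N * β : ℕ) : ℤ) ≤ U ∧
      (β * (N * a - 1) = α * b ∨ β * (N * b - 1) = α * a) := by
  obtain ⟨N, u, ρ, H, h1, h2, h3, h4, h5, h6, h7⟩ := h
  have key : ∀ x y : ℕ, 2 ≤ y → ρ ∣ x → (ρ : ℤ) ∣ (N * y : ℕ) - 1 →
      ρ * u + H = N * (x + y) * H → ∃ α β : ℕ, 1 ≤ α ∧ 1 ≤ β ∧ α + N * β ≤ u ∧
        β * (N * y - 1) = α * x ∨ x = 0 := by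
    intro x y hy hx hd he
    rcases Nat.eq_zero_or_pos x with h0 | hx0
    · exact ⟨0, 0, Or.inr h0⟩
    obtain ⟨β, hβ⟩ := hx
    have hNy : 1 * 2 ≤ N * y := Nat.mul_le_mul h1 hy
    have hd' : ρ ∣ N * y - 1 := by
      rw [← Int.natCast_dvd_natCast, Nat.cast_sub (by omega)]
      exact_mod_cast hd
    obtain ⟨α, hα⟩ := hd'
    have hβ1 : 1 ≤ β := by
      rcases Nat.eq_zero_or_pos β with h | h
      · subst h; omega
      · exact h
    have hα1 : 1 ≤ α := by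
      rcases Nat.eq_zero_or_pos α with h | h
      · subst h; omega
      · exact h
    refine ⟨α, β, Or.inl ⟨hα1, hβ1, ?_, ?_⟩⟩
    · have hNy' : N * y = ρ * α + 1 := by omega
      have h8 : ρ * u + H = (ρ * (α + N * β) + 1) * H := by
        rw [he, mul_add, hNy', hβ]
        ring
      have h9 : ρ * u = ρ * ((α + N * β) * H) := by
        have : (ρ * (α + N * β) + 1) * H = ρ * ((α + N * β) * H) + H := by ring
        omega
      have h10 : u = (α + N * β) * H := Nat.eq_of_mul_eq_mul_left h3 h9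
      rw [h10]
      exact Nat.le_mul_of_pos_right _ h4
    · rw [hα, hβ]
      ring
  rcases h7 with ⟨h8, h9⟩ | ⟨h8, h9⟩
  · obtain ⟨α, β, h | h⟩ := key a b hb h8 h9 h6
    · obtain ⟨e1, e2, e3, e4⟩ := h
      refine ⟨α, β, N, e1, e2, h1, h2, ?_, Or.inr e4⟩
      have : ((α + N * β : ℕ) : ℤ) ≤ u := by exact_mod_cast e3
      linarith
    · omega
  · obtain ⟨α, β, h | h⟩ := key b a ha h8 h9 (by rw [h6, add_comm a b])
    · obtain ⟨e1, e2, e3, e4⟩ := h
      refine ⟨α, β, N, e1, e2, h1, h2, ?_, Or.inl e4⟩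
      have : ((α + N * β : ℕ) : ℤ) ≤ u := by exact_mod_cast e3
      linarith
    · omega

end Pool.Agent.H863.TZ
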