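import Pool.Agent.H863.TZ.Small

/-!
Trapezoidal pairs for which `m / a` is a prime number.
-/

set_option autoImplicit false
set_option linter.unusedSectionVars false
set_option linter.unusedSimpArgs false

namespace Pool.Agent.H863.TZ

open MvPolynomial
open Pool.Agent.TH207 Pool.Agent.TH207.Ser Pool.Agent.TH207.Tz

variable {k : Type*} [Field k] [CharZero k] [IsAlgClosed k]

/-- The coordinates of a vertex without denominators above the diagonal are not coprime. -/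
theorem Lv1.not_coprime {a b : ℕ} (ha : 2 ≤ a) (hb : 2 ≤ b) (hcop : Nat.Coprime a b)
    {A : ℤ} {n ρ0 σ0 : ℕ} (L : Lv1 k a b A n ρ0 σ0) (hAn : A < n) : ¬ IsCoprime A (n : ℤ) := by
  obtain ⟨ρ, σ, K, H, s, μ0, A0, hρ2, hσ, hc, hK0, hH0, hK, hH, hs, htop, hdvd, _⟩ :=
    L.step ha hb hcop hAn
  rintro ⟨x, y, hxy⟩
  apply hdvd
  have hρz : (0 : ℤ) < ρ := by exact_mod_cast (by omega : 0 < ρ)
  have htz : (H : ℤ) * (1 + ρ * s) = K * n := by exact_mod_cast htop
  have hAX : A * K = H * (1 + σ * s) := by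
    apply mul_left_cancel₀ hρz.ne'
    linear_combination K * hH * (-1 : ℤ) + H * hK - σ * htz
  have h1 : (H : ℤ) ∣ K := by
    refine ⟨x * (1 + σ * s) + y * (1 + ρ * s), ?_⟩
    linear_combination (-(K : ℤ)) * hxy + x * hAX - y * htz
  exact_mod_cast h1

/-- For a prime `p` there is no vertex `(p, n)` without denominators with `p < n < 3 p`. -/
theorem Lv1.prime {a b : ℕ} (ha : 2 ≤ a) (hb : 2 ≤ b) (hcop : Nat.Coprime a b)
    {p n ρ0 σ0 : ℕ} (hp : p.Prime) (L : Lv1 k a b p n ρ0 σ0) (hpn : p < n) : 3 * p ≤ n := by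
  by_contra hcon
  push Not at hcon
  have h1 := L.not_coprime ha hb hcop (by exact_mod_cast hpn)
  have h2 : p ∣ n := by
    by_contra h3
    apply h1
    exact Nat.isCoprime_iff_coprime.2 ((Nat.Prime.coprime_iff_not_dvd hp).2 h3)
  obtain ⟨j, hj⟩ := h2
  have hp0 := hp.pos
  have hj2 : j = 2 := by
    have h3 : 1 < j := by
      by_contra h4
      have : p * j ≤ p * 1 := Nat.mul_le_mul_left p (by omega)
      omega
    have h4 : j < 3 := by
      by_contra h4
      have : p * 3 ≤ p * j := Nat.mul_le_mul_left p (by omega)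
      omega
    omega
  subst hj2
  obtain ⟨ρ, σ, K, H, s, μ0, A0, hρ2, hσ, hc, hK0, hH0, hK, hH, hs, htop, hdvd, e1, hA01, hA0A,
    hμ0n, h⟩ := L.step ha hb hcop (by exact_mod_cast hpn)
  have hρz : (0 : ℤ) < ρ := by exact_mod_cast (by omega : 0 < ρ)
  have hKz : (0 : ℤ) < K := by exact_mod_cast hK0
  have hpz : (0 : ℤ) < p := by exact_mod_cast hp0
  have hσz : (1 : ℤ) ≤ σ := by exact_mod_cast hσ
  have hsz : (1 : ℤ) ≤ s := by exact_mod_cast hs
  rw [hj] at htop hH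
  push_cast at hH
  have htz : (H : ℤ) * (1 + ρ * s) = K * (p * 2) := by exact_mod_cast htop
  have hAX : (p : ℤ) * K = H * (1 + σ * s) := by
    apply mul_left_cancel₀ hρz.ne'
    linear_combination K * hH * (-1 : ℤ) + H * hK - σ * htz
  have h5 : (ρ - 2 * σ) * s = (1 : ℤ) := by
    have hHz : (0 : ℤ) < H := by exact_mod_cast hH0
    apply mul_left_cancel₀ hHz.ne'
    linear_combination htz + 2 * hAX
  have h6 : (s : ℤ) = 1 := by
    have h7 : (s : ℤ) ∣ 1 := ⟨ρ - 2 * σ, by rw [← h5]; ring⟩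
    exact Int.eq_one_of_dvd_one (by linarith) h7
  rw [h6, mul_one] at h5
  have h8 : (ρ : ℤ) = 2 * σ + 1 := by linarith
  have h9 : (H : ℤ) = p := by rw [hH, h8]; ring
  have h10 : (K : ℤ) = σ + 1 := by rw [hK, h8]; ring
  rcases h with ⟨h11, h12, L'⟩ | ⟨h11, μ, hμ, h12, h13, L'⟩
  · -- above the diagonal
    apply L'.not_coprime ha hb hcop h12
    obtain ⟨a0, ha0⟩ := Int.eq_ofNat_of_zero_le (by linarith : 0 ≤ A0)
    subst ha0
    have h14 : Nat.Coprime p a0 := (Nat.Prime.coprime_iff_not_dvd hp).2 fun h15 => by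
      have h16 : 1 ≤ a0 := by exact_mod_cast hA01
      have h17 : a0 < p := by exact_mod_cast hA0A
      have := Nat.le_of_dvd (by omega) h15
      omega
    obtain ⟨x, y, hxy⟩ := Nat.isCoprime_iff_coprime.2 h14
    refine ⟨y + x * ρ, -(x * σ), ?_⟩
    rw [h9] at e1
    linear_combination hxy + x * e1
  · -- the edge crosses the diagonal
    obtain ⟨hμ2, _, S0, hS1, hS2, _, _, _, _, hS3⟩ := cross_arith (A := (p : ℤ)) hσ hK0 hK
      (by rw [hH, hj]; push_cast; ring) hc e1 hA01 h11 hs (by rw [htop, hj]) h13 h12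
    have h14 : (μ : ℤ) ≤ S0 := by exact_mod_cast hS3
    have h15 : (σ : ℤ) * μ ≤ σ * S0 := mul_le_mul_of_nonneg_left h14 (by linarith)
    have hμz : (1 : ℤ) ≤ μ := by exact_mod_cast hμ
    have h16 : (1 : ℤ) * μ ≤ σ * μ := mul_le_mul_of_nonneg_right hσz (by linarith)
    have h17 : μ < p := by
      have : (μ : ℤ) < p := by linarith
      exact_mod_cast this
    have h18 : Nat.Coprime p μ := (Nat.Prime.coprime_iff_not_dvd hp).2 fun h19 => by
      have := Nat.le_of_dvd (by omega) h19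
      omega
    have h12z : (H : ℤ) < μ * K := by exact_mod_cast h12
    have hu : (ρ : ℤ) * μ - (H + σ * μ) = μ * (σ + 1) - p := by rw [h8, h9]; ring
    rw [h9, h10] at h12z
    obtain ⟨x, y, hxy⟩ := Nat.isCoprime_iff_coprime.2 h18
    obtain ⟨α, β, ρ', H', v1, v2, v3, v4, _⟩ := L'.coprime ha hb hcop (by rw [hu]; linarith)
      ⟨y + x * (σ + 1), -x, by rw [hu]; linear_combination hxy⟩
    rw [hu] at v4
    have v5 : ((μ : ℤ) + 1) * 1 ≤ (α + μ * β) * H' := by
      have w1 : (μ : ℤ) * 1 ≤ μ * β := mul_le_mul_of_nonneg_left (by exact_mod_cast v2) (by linarith)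
      have w2 : (1 : ℤ) ≤ α := by exact_mod_cast v1
      have w3 : (1 : ℤ) ≤ H' := by exact_mod_cast v3
      exact mul_le_mul (by linarith) w3 (by linarith) (by linarith)
    linarith

/-- For a prime `m / a` one has `n ≥ 3 m`. -/
theorem prime_corner {a b p q : ℕ} (ha : 2 ≤ a) (hb : 2 ≤ b) (hcop : Nat.Coprime a b)
    (hp : p.Prime) (hpq : p < q) {F G : MvPolynomial (Fin 2) k} {c : k} (hc : c ≠ 0)
    (hJ : pderiv 0 F * pderiv 1 G - pderiv 1 F * pderiv 0 G = C c)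
    (hF1 : ∀ d, coeff d F ≠ 0 → d 1 ≤ a * q ∧ d 0 + d 1 ≤ a * p + a * q)
    (hF2 : coeff (ee (a * p) (a * q)) F ≠ 0)
    (hF3 : ∀ i ≤ a * q, ((X 0 + X 1 : MvPolynomial (Fin 2) k) ^ (a * q - i)) ∣
      homogeneousComponent (a * p + a * q - i) F)
    (hG1 : ∀ d, coeff d G ≠ 0 → d 1 ≤ b * q ∧ d 0 + d 1 ≤ b * p + b * q)
    (hG2 : coeff (ee (b * p) (b * q)) G ≠ 0) : 3 * p ≤ q := by
  obtain ⟨μ, h1, h2, L⟩ := main_start ha (by omega) hcop hp.pos hpq hc hJ hF1 hF2 hF3
    (fun d hd => (hG1 d hd).2) hG2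
  exact (L.prime ha hb hcop hp h1).trans h2

end Pool.Agent.H863.TZ
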