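import Pool.Agent.H863.TZ.Five
import Pool.Graph.R_seed8.Y83.NP.Tz

/-!
Trapezoidal pairs with `m ≤ 5 a`.
-/

set_option autoImplicit false
set_option linter.unusedSectionVars false
set_option linter.unusedSimpArgs false

namespace Pool.Agent.H863.TZ

open MvPolynomial
open Pool.Agent.TH207 Pool.Agent.TH207.Ser Pool.Agent.TH207.Tz

variable {k : Type*} [Field k] [CharZero k] [IsAlgClosed k]

/-- The vertex given by a trapezoidal pair, in the coordinates of the direction `(1, 0)`. -/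
theorem main0_start {a b : ℕ} (ha : 2 ≤ a) (hb : 1 ≤ b) (hcop : Nat.Coprime a b)
    {p : ℕ} (hp : 0 < p) {c : k} (hc : c ≠ 0) {F G : MvPolynomial (Fin 2) k}
    (hF : Le (a * p) 0 F) (hG : Le (b * p) 0 G)
    (h : pderiv 0 F * pderiv 1 G - pderiv 1 F * pderiv 0 G = C c)
    (hf0 : tp (a * p) 0 F ≠ 0) (hg0 : tp (b * p) 0 G ≠ 0) :
    ∃ q, (tp (a * p) 0 F).natDegree = a * q ∧ (tp (b * p) 0 G).natDegree = b * q ∧
      (p < q → ∃ μ, p < μ ∧ μ ≤ q ∧ Lv1 k a b p μ 1 0) := by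
  have h1 : 2 * 1 ≤ a * p := Nat.mul_le_mul ha hp
  have h2 : 1 * 1 ≤ b * p := Nat.mul_le_mul hb hp
  have hB := Bk_W hF hG (Nat.zero_le _) (Nat.zero_le _) (by omega) h
  obtain ⟨q, e1, e2, e3, _, e5⟩ := start ha hb hcop (A := p) (l := 1) (e := a * p + b * p - 1)
    hc (by simpa using hB) (by rw [add_mul]; omega) (by omega) hp one_pos hf0 hg0
  refine ⟨q, e1, e2, fun hlt => ?_⟩
  obtain ⟨r, μ, g1, g2, _, S⟩ := e5 (by rwa [mul_one])
  have h3 : ∀ m, coeff m (W (a * p) 0 F) ≠ 0 → m 0 ≤ a * p := by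
    intro m hm
    obtain ⟨m', _, h4, _⟩ := exists_of_coeff_W hm
    omega
  have h4 : ∀ m, coeff m (W (b * p) 0 G) ≠ 0 → m 0 ≤ b * p := by
    intro m hm
    obtain ⟨m', _, h4, _⟩ := exists_of_coeff_W hm
    omega
  have h5 := shf_support (r := r) h3
  have h6 := shf_support (r := r) h4
  exact ⟨μ, by omega, g2, _, _, _, _, _, _, _, _, S, by
    rw [Nat.cast_sub (by omega)]; push_cast; ring,
    fun m hm => by exact_mod_cast h5 m hm, fun m hm => by exact_mod_cast h6 m hm⟩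

/-- The vertex given by a trapezoidal pair. -/
theorem main_start {a b p q : ℕ} (ha : 2 ≤ a) (hb : 1 ≤ b) (hcop : Nat.Coprime a b)
    (hp : 0 < p) (hpq : p < q) {F G : MvPolynomial (Fin 2) k} {c : k} (hc : c ≠ 0)
    (hJ : pderiv 0 F * pderiv 1 G - pderiv 1 F * pderiv 0 G = C c)
    (hF1 : ∀ d, coeff d F ≠ 0 → d 1 ≤ a * q ∧ d 0 + d 1 ≤ a * p + a * q)
    (hF2 : coeff (ee (a * p) (a * q)) F ≠ 0)
    (hF3 : ∀ i ≤ a * q, ((X 0 + X 1 : MvPolynomial (Fin 2) k) ^ (a * q - i)) ∣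
      homogeneousComponent (a * p + a * q - i) F)
    (hG1 : ∀ d, coeff d G ≠ 0 → d 0 + d 1 ≤ b * p + b * q)
    (hG2 : coeff (ee (b * p) (b * q)) G ≠ 0) :
    ∃ μ, p < μ ∧ μ ≤ q ∧ Lv1 k a b p μ 1 0 := by
  have hFt : F.totalDegree ≤ a * p + a * q := tot_le fun d hd => (hF1 d hd).2
  have hGt : G.totalDegree ≤ b * p + b * q := tot_le hG1
  have hGt' : G.totalDegree = b * p + b * q := by
    apply le_antisymm hGt
    have := le_tot hG2
    rwa [ee_zero, ee_one] at this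
  obtain ⟨κ, hκ, hT⟩ := top_form hF1 hF2 (by
    have := hF3 0 (Nat.zero_le _)
    simpa using this)
  obtain ⟨t1, t2⟩ := top_z hFt hκ hT
  have hJ' : pderiv 0 (ph F) * pderiv 1 (ph G) - pderiv 1 (ph F) * pderiv 0 (ph G) = C c := by
    rw [jac_ph, hJ, ph_C]
  have hG3 : ∃ d, coeff d (ph G) ≠ 0 ∧ d 0 + d 1 = b * p + b * q := by
    have h0 : ph G ≠ 0 := by
      intro h0
      have h1 := ps_ph G
      rw [h0, map_zero] at h1
      rw [← h1, coeff_zero] at hG2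
      exact hG2 rfl
    have h1 : ((ph G).support).Nonempty := by
      rw [Finset.nonempty_iff_ne_empty, Ne, support_eq_empty]; exact h0
    obtain ⟨d, h2, h3⟩ := Finset.exists_mem_eq_sup (ph G).support h1
      (fun m => m.sum (fun _ e => e))
    refine ⟨d, mem_support_iff.1 h2, ?_⟩
    rw [← hGt', ← totalDegree_ph' G]
    unfold totalDegree
    rw [h3, fsum]
  obtain ⟨r1, r2, r3, r4⟩ := pair ha hb hp (by omega) hc hJ'
    (deg_z hFt hF3) (Le.of_tot ((totalDegree_ph F).trans hFt)) t1 t2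
    (Le.of_tot ((totalDegree_ph G).trans hGt)) hG3
  obtain ⟨q', s1, _, s4⟩ := main0_start ha hb hcop hp hc (deg_z hFt hF3) r1 hJ' r3 r4
  have hqq : q' = q := by
    rw [r2] at s1
    exact (Nat.eq_of_mul_eq_mul_left (by omega) s1).symm
  rw [hqq] at s4
  exact s4 hpq

/-- The small corners. -/
theorem small {a b p q : ℕ} (ha : 2 ≤ a) (hlt : a < b) (hcop : Nat.Coprime a b)
    (hp : 0 < p) (hpq : p < q) (hp5 : p ≤ 5) {F G : MvPolynomial (Fin 2) k} {c : k} (hc : c ≠ 0)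
    (hJ : pderiv 0 F * pderiv 1 G - pderiv 1 F * pderiv 0 G = C c)
    (hF1 : ∀ d, coeff d F ≠ 0 → d 1 ≤ a * q ∧ d 0 + d 1 ≤ a * p + a * q)
    (hF2 : coeff (ee (a * p) (a * q)) F ≠ 0)
    (hF3 : ∀ i ≤ a * q, ((X 0 + X 1 : MvPolynomial (Fin 2) k) ^ (a * q - i)) ∣
      homogeneousComponent (a * p + a * q - i) F)
    (hG1 : ∀ d, coeff d G ≠ 0 → d 1 ≤ b * q ∧ d 0 + d 1 ≤ b * p + b * q)
    (hG2 : coeff (ee (b * p) (b * q)) G ≠ 0) :
    (p = 4 ∧ 4 ∣ q ∧ 12 ≤ q ∧ 2 * b + 1 = 3 * a) ∨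
    (p = 5 ∧ 5 ∣ q ∧ 20 ≤ q ∧ (b + 1 = 2 * a ∨ b + 2 = 6 * a ∨ 3 * b = 4 * a + 1 ∨
      3 * b + 2 = 8 * a ∨ 4 * b = 7 * a + 1)) := by
  have hb : 2 ≤ b := by omega
  obtain ⟨μ, h1, h2, L⟩ := main_start ha (by omega) hcop hp hpq hc hJ hF1 hF2 hF3
    (fun d hd => (hG1 d hd).2) hG2
  have h4 := L.three ha hb hcop (by exact_mod_cast h1) (by positivity)
  have h5 : p = 4 ∨ p = 5 := by omega
  rcases h5 with rfl | rfl
  · left
    obtain ⟨h6, h7⟩ := L.four ha hb hcop h1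
    subst h6
    have h8 := (Pool.Agent.Y83.NP.tz_bound ha hb hcop hp hpq hc hJ hF1 hF2 hG1 hG2).2
    have h9 : 4 ∣ q := by
      rcases h8 with h8 | h8
      · exact h8
      · norm_num at h8
        have : q = 12 := by omega
        subst this
        norm_num
    exact ⟨rfl, h9, h2, by omega⟩
  · right
    obtain ⟨h6, h7⟩ := L.five ha hb hcop h1
    subst h6
    have h8 := Pool.Agent.Y83.NP.tz_coprime ha hb hcop hp (by omega : 0 < q) hc hJ hF1 hF2 hG1 hG2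
    have h9 : 5 ∣ q := by
      by_contra h9
      exact h8 ((Nat.Prime.coprime_iff_not_dvd (by norm_num)).2 h9)
    refine ⟨rfl, h9, h2, ?_⟩
    unfold R5 at h7
    omega

end Pool.Agent.H863.TZ
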