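import Pool.Agent.H863.TZ.Edge

/-!
One step in the tree of vertices, with the form of the lower component.
-/

set_option autoImplicit false
set_option linter.unusedSectionVars false
set_option linter.unusedSimpArgs false

namespace Pool.Agent.H863.TZ

open MvPolynomial
open Pool.Agent.TH207 Pool.Agent.TH207.Ser Pool.Agent.TH207.Tz

variable {k : Type*} [Field k] [CharZero k] [IsAlgClosed k]

/-- The edge of a non-terminal direction: a translation, or a lower component which is not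
linear. -/
theorem edge_step {a b : ℕ} (ha : 2 ≤ a) {D d : ℤ} {e : ℕ} {c : k}
    {F G : MvPolynomial (Fin 2) k} {ρ0 σ0 : ℕ} {A : ℤ} {n iF iG : ℕ} {ρ σ K H : ℕ}
    {f g h : Polynomial k} {c' : k}
    (S : St a b D d e c F G ρ0 σ0 A n iF iG) (X1 : Nx a b D d e F G A n iF iG ρ σ K H)
    (Y : Fm a b F G n iF iG ρ σ K H f g h c') :
    (ρ = 1 ∧ ∃ (D' d' : ℤ) (e' : ℕ) (c2 : k) (F' G' : MvPolynomial (Fin 2) k) (iF' iG' : ℕ),
      St a b D' d' e' c2 F' G' 1 σ A n iF' iG' ∧ D' + d' - e' = D + d - e) ∨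
    (∃ s : ℕ, 1 ≤ s ∧ H * (1 + ρ * s) = K * n ∧ ¬ H ∣ K) := by
  have hn0 : 0 < n := S.hn
  rcases edge_alt (by omega) S.hn X1.hK0 X1.hH0 Y.hc' Y.hf0 Y.hfd Y.heq
    (fun r => by obtain ⟨μ, h1, _⟩ := Y.hm r; exact ⟨μ, h1⟩) with ⟨r, hr⟩ | ⟨hT, htop, hdvd⟩
  · left
    have hr0 : r ≠ 0 := by
      rintro rfl
      have := Y.hz
      omega
    obtain ⟨μ, h1, h2⟩ := Y.hm r
    have hμ : μ = n := by
      rw [hr] at h1
      exact (Nat.eq_of_mul_eq_mul_left (by omega) h1).symm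
    subst hμ
    have horb := orbit X1.hρ Y.hf0 Y.hres hr0
    rw [hr, Y.hfd] at horb
    have hρ1 : ρ = 1 := by
      by_contra hne
      have h3 : 2 ≤ ρ := by have := X1.hρ; omega
      have h4 : 2 * (a * μ) ≤ ρ * (a * μ) := Nat.mul_le_mul_right _ h3
      have h5 : 1 * 1 ≤ a * μ := Nat.mul_le_mul (by omega) hn0
      omega
    subst hρ1
    obtain ⟨iF', iG', _, S'⟩ := Y.step1 S X1 S.hn h1 h2
    have h6 : (H : ℤ) + σ * μ = A := by
      have := X1.hH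
      push_cast at this
      linarith
    rw [h6] at S'
    exact ⟨rfl, _, _, _, _, _, _, iF', iG', S', by push_cast; ring⟩
  · right
    have hh0 : h ≠ 0 := by
      rintro rfl
      simp at hT
    have h1 : h.natDegree ≡ 1 [MOD ρ] := Y.hhres _ (by
      rw [Polynomial.coeff_natDegree]
      exact Polynomial.leadingCoeff_ne_zero.2 hh0)
    obtain ⟨q, hq⟩ : ∃ q, h.natDegree = 1 + q := ⟨h.natDegree - 1, by omega⟩
    have h6 : ρ ∣ q := by
      have h7 : 1 + 0 ≡ 1 + q [MOD ρ] := by rw [← hq]; exact h1.symm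
      have h8 := Nat.ModEq.add_left_cancel' 1 h7
      exact (Nat.modEq_zero_iff_dvd).1 h8.symm
    obtain ⟨s, hs⟩ := h6
    refine ⟨s, ?_, by rw [← htop, hq, hs], hdvd⟩
    rcases s with _ | s
    · rw [mul_zero] at hs; omega
    · omega

/-- One step, with the form of the lower component. -/
theorem Live.step2 {a b : ℕ} (ha : 2 ≤ a) (hb : 2 ≤ b) (hcop : Nat.Coprime a b)
    {l A : ℤ} {n ρ0 σ0 : ℕ} (L : Live k a b l A n ρ0 σ0) (hu : 0 < l * n - A) :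
    ∃ ρ σ K H : ℕ, 0 < ρ ∧ Nat.Coprime ρ σ ∧ σ0 * ρ < σ * ρ0 ∧ 0 < K ∧ 0 < H ∧
      (K : ℤ) = ρ * l - σ ∧ (H : ℤ) = ρ * A - σ * n ∧
      ((∃ α β : ℕ, 1 ≤ α ∧ 1 ≤ β ∧ ((α : ℤ) + n * β) * H = l * n - A ∧
        ((ρ * β = a ∧ ρ * α + 1 = n * b) ∨ (ρ * β = b ∧ ρ * α + 1 = n * a))) ∨
      (ρ = 1 ∧ Live k a b l A n 1 σ) ∨
      (∃ s : ℕ, 1 ≤ s ∧ (s : ℤ) * H = l * n - A ∧ H * (1 + ρ * s) = K * n ∧ ¬ H ∣ K ∧
        ∃ μ : ℕ, 1 ≤ μ ∧ H < μ * K ∧ Child k a b l n ρ σ H μ)) := by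
  obtain ⟨D, d, e, c, F, G, iF, iG, S, hl⟩ := L
  subst hl
  obtain ⟨ρ, σ, K, H, hlt, X1⟩ := exists_nx ha S hu
  refine ⟨ρ, σ, K, H, X1.hρ, X1.hcop, hlt, X1.hK0, X1.hH0, X1.hK, X1.hH, ?_⟩
  have hρz : (0 : ℤ) < ρ := by exact_mod_cast X1.hρ
  rcases Nat.lt_or_ge K ((a + b) * H) with hT | hT
  · right
    obtain ⟨f, g, h, c', Y⟩ := X1.form ha hcop S hT
    rcases edge_step ha S X1 Y with ⟨h1, D', d', e', c2, F', G', iF', iG', h2, h3⟩ | ⟨s, hs, h4, h5⟩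
    · left
      exact ⟨h1, _, _, _, _, _, _, _, _, h2, h3⟩
    · right
      refine ⟨s, hs, ?_, h4, h5, ?_⟩
      · apply mul_left_cancel₀ hρz.ne'
        rw [X1.hu]
        have h4z : (H : ℤ) * (1 + ρ * s) = K * n := by exact_mod_cast h4
        linear_combination h4z
      have h0 : H < n * K := by
        have h1 : (0 : ℤ) < ρ * ((D + d - e) * n - A) := mul_pos hρz hu
        rw [X1.hu] at h1
        zify; linarith
      obtain ⟨r, μ, h1, h2, h3, hμ⟩ := Y.root ha S.hn X1.hK0 h0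
      refine ⟨μ, hμ, h3, ?_⟩
      by_cases hr : r = 0
      · subst hr
        left
        obtain ⟨A', iF', iG', e1, _, S'⟩ := Y.step0 hcop S X1 hμ h1 h2
        refine ⟨?_, A', e1, D, d, e, c, F, G, iF', iG', S', rfl⟩
        have := Y.hz
        rw [h1] at this
        exact Nat.lt_of_mul_lt_mul_left this
      · right
        obtain ⟨iF', iG', _, S'⟩ := Y.step1 S X1 hμ h1 h2
        refine ⟨?_, _, _, _, _, _, _, iF', iG', S', by push_cast; ring⟩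
        have horb := orbit X1.hρ Y.hf0 Y.hres hr
        rw [h1, Y.hfd] at horb
        have h4 : a * (ρ * μ) ≤ a * n := by
          calc a * (ρ * μ) = ρ * (a * μ) := by ring
            _ ≤ a * n := by omega
        exact Nat.le_of_mul_le_mul_left h4 (by omega)
  · left
    have hT' : (a + b) * H = K := le_antisymm hT X1.hle
    obtain ⟨u, hu'⟩ := Int.eq_ofNat_of_zero_le hu.le
    obtain ⟨α, β, e1, e2, e3, e4⟩ := term_lin ha hb S.hn S.hc S.hB X1 hT' hu'.symm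
    refine ⟨α, β, e1, e2, ?_, e4⟩
    rw [hu']
    exact_mod_cast e3

/-- A vertex with coprime coordinates is terminal, up to translations. -/
theorem Live.coprime {a b : ℕ} (ha : 2 ≤ a) (hb : 2 ≤ b) (hcop : Nat.Coprime a b)
    {l A : ℤ} {n ρ0 σ0 : ℕ} (L : Live k a b l A n ρ0 σ0) (hu : 0 < l * n - A)
    (hco : IsCoprime (n : ℤ) (l * n - A)) :
    ∃ α β ρ H : ℕ, 1 ≤ α ∧ 1 ≤ β ∧ 1 ≤ H ∧ ((α : ℤ) + n * β) * H = l * n - A ∧
        ((ρ * β = a ∧ ρ * α + 1 = n * b) ∨ (ρ * β = b ∧ ρ * α + 1 = n * a)) := by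
  apply trans_ind (l := l) (A := A) (n := n) _ L
  intro ρ0 σ0 L
  obtain ⟨ρ, σ, K, H, hρ, hc, hlt, hK0, hH0, hK, hH, h | h | h⟩ := L.step2 ha hb hcop hu
  · left
    obtain ⟨α, β, h1, h2, h3, h4⟩ := h
    exact ⟨α, β, ρ, H, h1, h2, hH0, h3, h4⟩
  · right
    obtain ⟨rfl, L'⟩ := h
    refine ⟨σ, by omega, ?_, L'⟩
    push_cast at hK
    omega
  · exfalso
    obtain ⟨s, hs, h1, h2, h3, _⟩ := h
    apply h3
    have h4 : IsCoprime (H : ℤ) (n : ℤ) := by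
      rw [← h1] at hco
      exact hco.symm.of_mul_left_right
    have h5 : (H : ℤ) ∣ K * n := by
      refine ⟨1 + ρ * s, ?_⟩
      exact_mod_cast h2.symm
    have h6 := h4.dvd_of_dvd_mul_right h5
    exact_mod_cast h6

end Pool.Agent.H863.TZ
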